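import Pool.Agent.Lib.MP_216314_pr.Q4.WBil

/-!
# All sites are legs

Periods `kb`, `kt` with `kb` legs below and `kt` legs above: nothing is glued. `WL kb kt β α` iff no arc of `β` and no arc of `α` joins two of the sites `0, ..., L-1` iff both patterns are the reference pattern.
-/

set_option autoImplicit false

noncomputable section

namespace CY

open Finset

/-- arcs from `[0, L)` to the left -/
theorem Base_left {L : ℕ} {α : Pat L} (h : ∀ x : ℤ, 0 ≤ x → x < L → α.f x < 0 ∨ (L : ℤ) ≤ α.f x) {x : ℤ} (h0 : 0 ≤ x)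
    (h1 : x < L) (hx : α.f x < 0) : α.f x = -1 - x := by
  have hp := α.lt_per x
  rw [abs_lt] at hp
  obtain ⟨hp1, -⟩ := hp
  have key : (Finset.Ico 0 x).card = (Finset.Ioo (α.f x) 0).card := by
    refine Finset.card_nbij' α.f α.f ?_ ?_ (fun y _ => α.inv y) (fun y _ => α.inv y)
    · intro y hy
      rw [Finset.mem_coe, Finset.mem_Ico] at hy
      rw [Finset.mem_coe, Finset.mem_Ioo]
      have h2 := α.nc (α.f x) y (by omega) (by rw [α.inv]; omega)
      rw [α.inv] at h2
      have h3 := h y (by omega) (by omega)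
      omega
    · intro y hy
      rw [Finset.mem_coe, Finset.mem_Ioo] at hy
      rw [Finset.mem_coe, Finset.mem_Ico]
      have h2 := α.nc (α.f x) y (by omega) (by rw [α.inv]; omega)
      rw [α.inv] at h2
      have h3 := h (y + L) (by omega) (by omega)
      rw [α.per] at h3
      omega
  rw [Int.card_Ico, Int.card_Ioo] at key
  omega

theorem Base_ref {L : ℕ} {α : Pat L} (h : ∀ x : ℤ, 0 ≤ x → x < L → α.f x < 0 ∨ (L : ℤ) ≤ α.f x) : IsRef α := by
  -- arcs to the right
  have hr : ∀ x : ℤ, 0 ≤ x → x < L → (L : ℤ) ≤ α.f x → α.f x = 2 * L - 1 - x := by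
    intro x h0 h1 hx
    have hp := α.lt_per x
    rw [abs_lt] at hp
    obtain ⟨-, hp2⟩ := hp
    have e : α.f (α.f x - L) = x - L := by
      have h2 := α.per (α.f x - L)
      rw [sub_add_cancel, α.inv] at h2
      omega
    have h3 := Base_left h (x := α.f x - L) (by omega) (by omega) (by omega)
    omega
  -- the first half
  have hl : ∀ x : ℤ, 0 ≤ x → 2 * x < L → α.f x = -1 - x := by
    intro x h0 h1
    have hp := α.lt_per x
    rw [abs_lt] at hp
    rcases h x h0 (by omega) with h2 | h2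
    · exact Base_left h h0 (by omega) h2
    · have := hr x h0 (by omega) h2
      omega
  intro x hx1 hx2
  by_cases h0 : 0 ≤ x
  · exact hl x h0 hx2
  · have h1 := hl (-1 - x) (by omega) (by omega)
    have h2 := α.inv (-1 - x)
    rw [h1] at h2
    have e : -1 - (-1 - x) = x := by ring
    rw [e] at h2
    exact h2

theorem Base_out {L : ℕ} {α : Pat L} (h : IsRef α) {x : ℤ} (h0 : 0 ≤ x) (h1 : x < L) :
    α.f x < 0 ∨ (L : ℤ) ≤ α.f x := by
  by_cases hx : 2 * x < L
  · have := h x (by omega) hx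
    omega
  · have h2 := h (x - L) (by omega) (by omega)
    have h3 := α.per (x - L)
    rw [sub_add_cancel] at h3
    omega

/-- the separating set of a node -/
def Base_S {Lb Lt : ℕ} (β : Pat Lb) (α : Pat Lt) (u : Bool × ℤ) : Set (Bool × ℤ) :=
  {w | w.1 = u.1 ∧ (w.2 = u.2 ∨ (w.1 = true ∧ w.2 = α.f u.2) ∨ (w.1 = false ∧ w.2 = β.f u.2))}

theorem Base_closed {kb kt : ℕ} (β : Pat kb) (α : Pat kt) (u : Bool × ℤ) : LCl kb kt β α (Base_S β α u) := by
  refine ⟨?_, ?_, ?_⟩
  · intro x hx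
    obtain ⟨h1, h2⟩ := hx
    refine ⟨h1, ?_⟩
    rcases h2 with h2 | ⟨_, h2⟩ | ⟨h3, _⟩
    · right
      left
      refine ⟨rfl, ?_⟩
      change x = u.2 at h2
      show α.f x = α.f u.2
      rw [h2]
    · left
      change x = α.f u.2 at h2
      show α.f x = u.2
      rw [h2, α.inv]
    · exact absurd h3 (by simp)
  · intro x hx
    obtain ⟨h1, h2⟩ := hx
    refine ⟨h1, ?_⟩
    rcases h2 with h2 | ⟨h3, _⟩ | ⟨_, h2⟩
    · right
      right
      refine ⟨rfl, ?_⟩
      change x = u.2 at h2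
      show β.f x = β.f u.2
      rw [h2]
    · exact absurd h3 (by simp)
    · left
      change x = β.f u.2 at h2
      show β.f x = u.2
      rw [h2, β.inv]
  · intro x hx
    exfalso
    have h1 := Int.emod_lt_of_pos x (show (0 : ℤ) < (kt : ℤ) by exact_mod_cast α.pos)
    omega

theorem Base_wl {kb kt : ℕ} (β : Pat kb) (α : Pat kt) : WL kb kt β α ↔ IsRef β ∧ IsRef α := by
  constructor
  · intro hw
    constructor
    · refine Base_ref fun x h0 h1 => ?_
      by_contra hc
      rw [not_or, not_lt, not_le] at hc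
      obtain ⟨S, hS, h2, h3⟩ := hw (false, x) (false, β.f x) ⟨h0, Or.inr ⟨rfl, h1⟩⟩ ⟨hc.1, Or.inr ⟨rfl, hc.2⟩⟩
        (fun he => β.ne x (Prod.mk.inj he).2.symm)
      exact h3 (hS.bot _ h2)
    · refine Base_ref fun x h0 h1 => ?_
      by_contra hc
      rw [not_or, not_lt, not_le] at hc
      obtain ⟨S, hS, h2, h3⟩ := hw (true, x) (true, α.f x) ⟨h0, Or.inl ⟨rfl, h1⟩⟩ ⟨hc.1, Or.inl ⟨rfl, hc.2⟩⟩
        (fun he => α.ne x (Prod.mk.inj he).2.symm)
      exact h3 (hS.top _ h2)
  · rintro ⟨hβ, hα⟩ u v hu hv huv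
    refine ⟨Base_S β α u, Base_closed β α u, ⟨rfl, Or.inl rfl⟩, ?_⟩
    rintro ⟨h1, h2 | ⟨h3, h2⟩ | ⟨h3, h2⟩⟩
    · exact huv (Prod.ext h1.symm h2.symm)
    · obtain ⟨hu0, ⟨hu1, hu2⟩ | ⟨hu1, hu2⟩⟩ := hu
      · obtain ⟨hv0, ⟨hv1, hv2⟩ | ⟨hv1, hv2⟩⟩ := hv
        · have := Base_out hα hu0 hu2
          omega
        · rw [h3] at hv1
          exact absurd hv1 (by simp)
      · rw [← h1, h3] at hu1
        exact absurd hu1 (by simp)
    · obtain ⟨hu0, ⟨hu1, hu2⟩ | ⟨hu1, hu2⟩⟩ := hu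
      · rw [← h1, h3] at hu1
        exact absurd hu1 (by simp)
      · obtain ⟨hv0, ⟨hv1, hv2⟩ | ⟨hv1, hv2⟩⟩ := hv
        · rw [h3] at hv1
          exact absurd hv1 (by simp)
        · have := Base_out hβ hu0 hu2
          omega

/-- all sites are legs -/
theorem WB_all {kb kt : ℕ} (v : V kb) (w : V kt) (ρb : Pat kb) (hρb : IsRef ρb) (ρt : Pat kt) (hρt : IsRef ρt) :
    WB kb kt v w = v ρb * w ρt := by
  unfold WB
  rw [Finset.sum_eq_single ρb, Finset.sum_eq_single ρt]
  · have h1 : wW kb kt ρb ρt = 1 := by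
      unfold wW
      exact if_pos ((Base_wl ρb ρt).2 ⟨hρb, hρt⟩)
    rw [h1, mul_one]
  · intro α _ hα
    have h1 : wW kb kt ρb α = 0 := by
      unfold wW
      exact if_neg (fun h => hα (IsRef.unique ((Base_wl ρb α).1 h).2 hρt))
    rw [h1, mul_zero]
  · intro h
    exact absurd (Finset.mem_univ _) h
  · intro β _ hβ
    refine Finset.sum_eq_zero (fun α _ => ?_)
    have h1 : wW kb kt β α = 0 := by
      unfold wW
      exact if_neg (fun h => hβ (IsRef.unique ((Base_wl β α).1 h).1 hρb))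
    rw [h1, mul_zero]
  · intro h
    exact absurd (Finset.mem_univ _) h

end CY
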