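import Pool.Agent.Lib.MP_216314_pr.QL.EqD

/-!
# Two legs, one glued strand, period `2`

`Pat 2` has two elements, the reference pattern `r` and `rot r`. The legs `(true, 0)`, `(false, 0)` are not connected iff the patterns are different.
-/

set_option autoImplicit false

noncomputable section

namespace CY

open Finset

private theorem BaseOne_f {r : Pat 2} (hr : IsRef r) (k : ℤ) : r.f (2 * k) = 2 * k - 1 ∧ r.f (2 * k - 1) = 2 * k := by
  have h0 : r.f 0 = -1 := by
    have h := hr 0 (by norm_num) (by norm_num)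
    rw [h]
    norm_num
  have h1 : r.f (-1) = 0 := by
    have h := hr (-1) (by norm_num) (by norm_num)
    rw [h]
    norm_num
  have h2 := Pat.per_mul r 0 k
  have h3 := Pat.per_mul r (-1) k
  rw [h0] at h2
  rw [h1] at h3
  push_cast at h2 h3
  have e1 : (2 * k : ℤ) = 0 + k * 2 := by ring
  have e2 : (2 * k - 1 : ℤ) = -1 + k * 2 := by ring
  constructor
  · rw [e1, h2]
    ring
  · rw [e2, h3]
    ring

private theorem BaseOne_g {r : Pat 2} (hr : IsRef r) (k : ℤ) : (Pat.rot r).f (2 * k) = 2 * k + 1 ∧ (Pat.rot r).f (2 * k + 1) = 2 * k := by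
  have h1 := (BaseOne_f hr (k + 1)).1
  have h2 := (BaseOne_f hr (k + 1)).2
  constructor
  · show r.f (2 * k + 1) - 1 = 2 * k + 1
    have e1 : (2 * k + 1 : ℤ) = 2 * (k + 1) - 1 := by ring
    rw [e1, h2]
  · show r.f (2 * k + 1 + 1) - 1 = 2 * k
    have e1 : (2 * k + 1 + 1 : ℤ) = 2 * (k + 1) := by ring
    rw [e1, h1]
    omega

private theorem BaseOne_cases {r : Pat 2} (hr : IsRef r) (α : Pat 2) : α = r ∨ α = Pat.rot r := by
  have h1 := Pat.lt_per α 0
  have h2 := α.ne 0
  have h3 : α.f 0 = 1 ∨ α.f 0 = -1 := by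
    rw [abs_lt] at h1
    push_cast at h1
    omega
  rcases h3 with h | h
  · right
    have h4 : α.f 1 = 0 := by
      have := α.inv 0
      rw [h] at this
      exact this
    have h5 : α.f (-1) = -2 := by
      have := Pat.per_sub α 1
      rw [h4] at this
      push_cast at this
      exact this
    have h6 : α.f (-2) = -1 := by
      have := Pat.per_sub α 0
      rw [h] at this
      push_cast at this
      exact this
    have h7 : IsRef (Pat.rotInv α) := by
      intro x hx1 hx2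
      push_cast at hx1 hx2
      have h8 : x = 0 ∨ x = -1 := by omega
      rcases h8 with rfl | rfl
      · show α.f (0 - 1) + 1 = -1 - 0
        have e : (0 - 1 : ℤ) = -1 := by norm_num
        rw [e, h5]
        norm_num
      · show α.f (-1 - 1) + 1 = -1 - -1
        have e : (-1 - 1 : ℤ) = -2 := by norm_num
        rw [e, h6]
        norm_num
    have h9 := IsRef.unique h7 hr
    rw [← h9, Pat.rot_rotInv]
  · left
    have h4 : α.f (-1) = 0 := by
      have := α.inv 0
      rw [h] at this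
      exact this
    refine IsRef.unique ?_ hr
    intro x hx1 hx2
    push_cast at hx1 hx2
    have h8 : x = 0 ∨ x = -1 := by omega
    rcases h8 with rfl | rfl
    · rw [h]
      norm_num
    · rw [h4]
      norm_num

private theorem BaseOne_ev {q : ℂ} {P : Pat 2 → MvPolynomial ℕ ℂ} (hP : IsPsi q 2 P) {r : Pat 2} (hr : IsRef r) (z : ℕ → ℂ) :
    ev P z r = F q (z 0) (z 1) ∧ ev P z (Pat.rot r) = F q (z 1) (z 0) := by
  have h1 : ∀ z : ℕ → ℂ, ev P z r = F q (z 0) (z 1) := by
    intro z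
    rw [hP.ref z r hr]
    have e1 : Ioo 0 2 = {1} := by decide
    have e2 : Ioo 1 2 = ∅ := by decide
    rw [Finset.prod_range_succ, Finset.prod_range_succ, Finset.prod_range_zero, e1, e2, Finset.prod_singleton,
      Finset.prod_empty, one_mul, mul_one]
  refine ⟨h1 z, ?_⟩
  have h2 : cyc 2 (cyc 2 z) = z := by
    funext k
    unfold cyc
    rcases Nat.lt_or_ge k 1 with h | h
    · have hk : k = 0 := by omega
      subst hk
      simp
    · rcases Nat.lt_or_ge k 2 with h' | h'
      · have hk : k = 1 := by omega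
        subst hk
        simp
      · rw [if_neg (by omega), if_neg (by omega), if_neg (by omega), if_neg (by omega)]
  have h3 := congrFun (hP.rot (cyc 2 z)) (Pat.rot r)
  rw [h2, R_apply, h1] at h3
  rw [h3]
  have e3 : cyc 2 z 0 = z 1 := by
    unfold cyc
    simp
  have e4 : cyc 2 z 1 = z 0 := by
    unfold cyc
    simp
  rw [e3, e4]

private theorem BaseOne_glue {β α : Pat 2} {S : Set (Bool × ℤ)} (hS : LCl 1 1 β α S) (k : ℤ) (h : (true, 2 * k + 1) ∈ S) :
    (false, 2 * k + 1) ∈ S := by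
  have h1 := hS.glue (2 * k + 1) (by push_cast; omega)
  have e : tb 2 1 1 (2 * k + 1) = 2 * k + 1 := by
    unfold tb
    simp
  rw [e] at h1
  exact h1.1 h

private theorem BaseOne_rr {r : Pat 2} (hr : IsRef r) : ¬ WL 1 1 r r := by
  intro hw
  obtain ⟨S, hS, h1, h2⟩ := hw (true, 0) (false, 0) ⟨le_refl _, Or.inl ⟨rfl, by show (0 : ℤ) < ((1 : ℕ) : ℤ); norm_num⟩⟩
    ⟨le_refl _, Or.inr ⟨rfl, by show (0 : ℤ) < ((1 : ℕ) : ℤ); norm_num⟩⟩ (by simp)
  have h3 := hS.top _ h1
  have e1 := (BaseOne_f hr 0).1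
  have e2 := (BaseOne_f hr 0).2
  norm_num at e1 e2
  rw [e1] at h3
  have h4 := BaseOne_glue hS (-1) (by norm_num; exact h3)
  norm_num at h4
  have h5 := hS.bot _ h4
  rw [e2] at h5
  exact h2 h5

private theorem BaseOne_cc {r : Pat 2} (hr : IsRef r) : ¬ WL 1 1 (Pat.rot r) (Pat.rot r) := by
  intro hw
  obtain ⟨S, hS, h1, h2⟩ := hw (true, 0) (false, 0) ⟨le_refl _, Or.inl ⟨rfl, by show (0 : ℤ) < ((1 : ℕ) : ℤ); norm_num⟩⟩
    ⟨le_refl _, Or.inr ⟨rfl, by show (0 : ℤ) < ((1 : ℕ) : ℤ); norm_num⟩⟩ (by simp)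
  have h3 := hS.top _ h1
  have e1 := (BaseOne_g hr 0).1
  have e2 := (BaseOne_g hr 0).2
  norm_num at e1 e2
  rw [e1] at h3
  have h4 := BaseOne_glue hS 0 (by norm_num; exact h3)
  norm_num at h4
  have h5 := hS.bot _ h4
  rw [e2] at h5
  exact h2 h5

/-- the two legs, from a separating set -/
private theorem BaseOne_wl {β α : Pat 2} {S : Set (Bool × ℤ)} (hS : LCl 1 1 β α S) (h1 : (true, (0 : ℤ)) ∈ S)
    (h2 : (false, (0 : ℤ)) ∉ S) : WL 1 1 β α := by
  have hl : ∀ u : Bool × ℤ, IsLeg 1 1 u → u = (true, 0) ∨ u = (false, 0) := by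
    rintro ⟨b, x⟩ ⟨h0, ⟨h3, h4⟩ | ⟨h3, h4⟩⟩
    · left
      simp only at h0 h3 h4
      have : x = 0 := by omega
      rw [h3, this]
    · right
      simp only at h0 h3 h4
      have : x = 0 := by omega
      rw [h3, this]
  intro u v hu hv huv
  rcases hl u hu with rfl | rfl
  · rcases hl v hv with rfl | rfl
    · exact absurd rfl huv
    · exact ⟨S, hS, h1, h2⟩
  · rcases hl v hv with rfl | rfl
    · exact ⟨Sᶜ, lcl_compl hS, h2, fun h => h h1⟩
    · exact absurd rfl huv

private theorem BaseOne_rc {r : Pat 2} (hr : IsRef r) : WL 1 1 r (Pat.rot r) := by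
  have a0 := (BaseOne_g hr 0).1
  have a1 := (BaseOne_g hr 0).2
  have b1 := (BaseOne_f hr 1).1
  have b2 := (BaseOne_f hr 1).2
  norm_num at a0 a1 b1 b2
  refine BaseOne_wl (S := {(true, 0), (true, 1), (false, 1), (false, 2)}) ⟨?_, ?_, ?_⟩ (by simp) (by simp)
  · intro x hx
    simp only [Set.mem_insert_iff, Set.mem_singleton_iff, Prod.mk.injEq, true_and, reduceCtorEq, false_and, or_false] at hx ⊢
    rcases hx with rfl | rfl
    · right
      exact a0
    · left
      exact a1
  · intro x hx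
    simp only [Set.mem_insert_iff, Set.mem_singleton_iff, Prod.mk.injEq, true_and, reduceCtorEq, false_and, false_or] at hx ⊢
    rcases hx with rfl | rfl
    · right
      exact b2
    · left
      exact b1
  · intro x hx
    have e : tb 2 1 1 x = x := by
      unfold tb
      simp
    rw [e]
    simp only [Set.mem_insert_iff, Set.mem_singleton_iff, Prod.mk.injEq, true_and, reduceCtorEq, false_and, false_or, or_false]
    push_cast at hx
    omega

private theorem BaseOne_cr {r : Pat 2} (hr : IsRef r) : WL 1 1 (Pat.rot r) r := by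
  have a0 := (BaseOne_f hr 0).1
  have a1 := (BaseOne_f hr 0).2
  have b1 := (BaseOne_g hr (-1)).1
  have b2 := (BaseOne_g hr (-1)).2
  norm_num at a0 a1 b1 b2
  refine BaseOne_wl (S := {(true, 0), (true, -1), (false, -1), (false, -2)}) ⟨?_, ?_, ?_⟩ (by simp) (by simp)
  · intro x hx
    simp only [Set.mem_insert_iff, Set.mem_singleton_iff, Prod.mk.injEq, true_and, reduceCtorEq, false_and, or_false] at hx ⊢
    rcases hx with rfl | rfl
    · right
      exact a0
    · left
      exact a1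
  · intro x hx
    simp only [Set.mem_insert_iff, Set.mem_singleton_iff, Prod.mk.injEq, true_and, reduceCtorEq, false_and, false_or] at hx ⊢
    rcases hx with rfl | rfl
    · right
      exact b2
    · left
      exact b1
  · intro x hx
    have e : tb 2 1 1 x = x := by
      unfold tb
      simp
    rw [e]
    simp only [Set.mem_insert_iff, Set.mem_singleton_iff, Prod.mk.injEq, true_and, reduceCtorEq, false_and, false_or, or_false]
    push_cast at hx
    omega

theorem WB_one {q : ℂ} {Pb P : Pat 2 → MvPolynomial ℕ ℂ} (hPb : IsPsi (q ^ 2) 2 Pb) (hP : IsPsi q 2 P)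
    (y z : ℕ → ℂ) : WB 1 1 (ev Pb y) (ev P z) =
      F (q ^ 2) (y 0) (y 1) * F q (z 1) (z 0) + F (q ^ 2) (y 1) (y 0) * F q (z 0) (z 1) := by
  obtain ⟨r, hr⟩ := exists_ref (L := 2) (by decide) (by norm_num)
  have hne : r ≠ Pat.rot r := by
    intro h
    have h1 := (BaseOne_f hr 0).1
    have h2 := (BaseOne_g hr 0).1
    rw [← h, h1] at h2
    omega
  have hsum : ∀ g : Pat 2 → ℂ, ∑ α, g α = g r + g (Pat.rot r) := by
    intro g
    refine Fintype.sum_eq_add r (Pat.rot r) hne ?_
    rintro α ⟨h1, h2⟩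
    rcases BaseOne_cases hr α with h | h
    · exact absurd h h1
    · exact absurd h h2
  unfold WB wW
  rw [hsum, hsum, hsum, if_neg (BaseOne_rr hr), if_neg (BaseOne_cc hr), if_pos (BaseOne_rc hr), if_pos (BaseOne_cr hr),
    (BaseOne_ev hP hr z).1, (BaseOne_ev hP hr z).2, (BaseOne_ev hPb hr y).1, (BaseOne_ev hPb hr y).2]
  ring

end CY

namespace QL

open Finset CY Q4 Polynomial

theorem Phi_one (a c z : ℂ) (w : ℕ → ℂ) (hw : w 0 = z) :
    Phi 1 1 [a, c, z, z] w = a * c + 2 * a * z + 2 * c * z + z ^ 2 := by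
  set x : ℕ → ℂ := fun i => [a, c, z, z].getD i 0 with hx
  have x0 : x 0 = a := rfl
  have x1 : x 1 = c := rfl
  have x2 : x 2 = z := rfl
  have x3 : x 3 = z := rfl
  have d1 : ∀ i, DD x i (GG 1 1 w 0) = hh x 0 i := fun i => DD_X_pow x i 0
  have d2 : ∀ i, DD x i (GG 1 1 w 1) = hh x 1 i := fun i => DD_X_pow x i 1
  have d3 : ∀ i, DD x i (GG 1 1 w 2) = hh x 3 i - z ^ 3 * hh x 0 i := by
    intro i
    have e : GG 1 1 w 2 = (X ^ 3 - C (w 0 ^ 3)) * X ^ 0 := rfl
    rw [e, hw, sub_mul, ← pow_add, DD_sub, DD_C_mul, DD_X_pow, DD_X_pow]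
  have d4 : ∀ i, DD x i (GG 1 1 w 3) = hh x 4 i - z ^ 3 * hh x 1 i := by
    intro i
    have e : GG 1 1 w 3 = (X ^ 3 - C (w 0 ^ 3)) * X ^ 1 := rfl
    rw [e, hw, sub_mul, ← pow_add, DD_sub, DD_C_mul, DD_X_pow, DD_X_pow]
  unfold Phi PhF
  have hM : (Matrix.of fun i j : Fin (2 * 1 + 2 * 1) => DD (fun i => [a, c, z, z].getD i 0) i (GG 1 1 w j)) =
      !![1, a, hh x 3 0 - z ^ 3, hh x 4 0 - z ^ 3 * a; 0, 1, hh x 3 1, hh x 4 1 - z ^ 3; 0, 0, a + c + z,
        a ^ 2 + c ^ 2 + z ^ 2 + a * c + a * z + c * z; 0, 0, 1, a + c + z + z] := by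
    apply Matrix.ext
    intro i j
    rw [Matrix.of_apply]
    fin_cases j
    · fin_cases i
      · exact (d1 0).trans (by simp [hh])
      · exact (d1 1).trans (by simp [hh])
      · exact (d1 2).trans (by simp [hh])
      · exact (d1 3).trans (by simp [hh])
    · fin_cases i
      · exact (d2 0).trans (by simp [hh, x0])
      · exact (d2 1).trans (by simp [hh])
      · exact (d2 2).trans (by simp [hh])
      · exact (d2 3).trans (by simp [hh])
    · fin_cases i
      · exact (d3 0).trans (by simp [hh])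
      · exact (d3 1).trans (by simp [hh])
      · refine (d3 2).trans ?_
        simp [hh, x0, x1, x2]
        ring
      · exact (d3 3).trans (by simp [hh])
    · fin_cases i
      · exact (d4 0).trans (by simp [hh, x0])
      · exact (d4 1).trans (by simp [hh])
      · refine (d4 2).trans ?_
        simp [hh, x0, x1, x2]
        ring
      · refine (d4 3).trans ?_
        simp [hh, x0, x1, x2, x3]
        ring
  rw [hM]
  simp [Matrix.det_succ_column_zero, Fin.sum_univ_succ]
  ring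

/-- two legs, one glued strand -/
theorem EQ_one {q : ℂ} (hq : q ^ 2 + q + 1 = 0) {Pb P : Pat 2 → MvPolynomial ℕ ℂ} (hPb : IsPsi (q ^ 2) 2 Pb) (hP : IsPsi q 2 P)
    (c a z : ℕ → ℂ) : EQ 1 q 1 1 1 Pb P c a z := by
  have hI : Ioo 0 1 = (∅ : Finset ℕ) := by decide
  have h1 : FP q 1 a = 1 := by
    unfold FP
    rw [Finset.prod_range_one, hI, Finset.prod_empty]
  have h2 : FP (q ^ 2) 1 c = 1 := by
    unfold FP
    rw [Finset.prod_range_one, hI, Finset.prod_empty]
  have h3 : Phi 1 1 (xl 1 1 1 c a z) z = a 0 * c 0 + 2 * a 0 * z 0 + 2 * c 0 * z 0 + z 0 ^ 2 :=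
    Phi_one (a 0) (c 0) (z 0) z rfl
  have h4 : NN 1 1 Pb P c a z = F (q ^ 2) (c 0) (z 0) * F q (z 0) (a 0) + F (q ^ 2) (z 0) (c 0) * F q (a 0) (z 0) :=
    WB_one hPb hP (cat 1 c z) (cat 1 a z)
  have h5 : ex 1 = 0 := rfl
  unfold EQ
  rw [h1, h2, h3, h4, h5]
  have e : ∏ j ∈ range 1, z j ^ 0 = 1 := by simp
  rw [e]
  unfold F
  have hq3 : q ^ 3 = 1 := by
    linear_combination (q - 1) * hq
  linear_combination ((c 0 * z 0 + a 0 * z 0) * (q ^ 3 + 2) + (c 0 * a 0 + z 0 ^ 2)) * hq3 - q ^ 3 * (c 0 * a 0 + z 0 ^ 2) * hq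

end QL
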