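import Pool.Agent.Lib.MP_216314_pr.QL.EqD

/-!
# Exchanges in the main identity

`EQ_comm`: `NN_comm`, `xl_comm`, `Phi_perm` (length `2m+4`), `(q²)² = q`. `EQ_swap_leg`: `NN_swap_leg`, `FP_sw`; `xl` of `sw i a` is a permutation; cancel `F q (a (i+1)) (a i) ≠ 0`:
`F₁ NN(a) ∏ = F₀ NN(sw a) ∏ = F₀ FP(sw a) .. = F₁ FP(a) ..`. `EQ_swap_z`: `NN_swap_z`, `∏ (sw i z)_j² = ∏ z_j²`, `Phi_swap_z` (`sw` and `swp` are the same function, `rfl`), `Phi_perm`.
`EQ_zero`: `NN = 0` by induction on `kt - 1 - i`: for `i + 1 = kt`: `NN_zero` for the legs `i`, `i+1 = kt` (with `kt + 1` legs); otherwise `NN_swap_leg` at `i`: `F(a_{i+1}, a_i) NN(a) = F(a_i,a_{i+1}) NN(sw i a)` and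
`NN(sw i a) = 0` by induction (`(sw i a)_{i+1} = a_i`); `F(a_{i+1}, a_i) ≠ 0`. The right side vanishes since `FP q (kt+1) a` contains the factor `F(a_i, a_kt)` (`FP_succ`).
-/

set_option autoImplicit false

noncomputable section

namespace QL

open Finset CY Q4

/-- product over a range and exchange of two neighbours -/
private theorem eqA_prod {m i : ℕ} (e : ℕ) (hi : i + 1 < m) (z : ℕ → ℂ) :
    ∏ j ∈ range m, sw i z j ^ e = ∏ j ∈ range m, z j ^ e := by
  refine Finset.prod_equiv (Equiv.swap i (i + 1)) (fun j => ?_) (fun j _ => rfl)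
  rw [Finset.mem_range, Finset.mem_range, Equiv.swap_apply_def]
  split_ifs <;> omega

private theorem eqA_q4 {q : ℂ} (hq : q ^ 2 + q + 1 = 0) : (q ^ 2) ^ 2 = q := by
  linear_combination (q ^ 2 - q) * hq

section

variable {q : ℂ} (hq : q ^ 2 + q + 1 = 0) {l Lb Lt kb kt m : ℕ} {Pb : Pat Lb → MvPolynomial ℕ ℂ} {P : Pat Lt → MvPolynomial ℕ ℂ}
include hq

theorem EQ_comm (h : LOk Lb Lt kb kt) (h4 : kb + kt = 2 * l) {c a z : ℕ → ℂ} (hE : EQ l (q ^ 2) kt kb m P Pb a c z) :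
    EQ l q kb kt m Pb P c a z := by
  unfold EQ at hE ⊢
  rw [eqA_q4 hq] at hE
  have h1 : Phi l m (xl kb kt m c a z) z = Phi l m (xl kt kb m a c z) z :=
    Phi_perm l m (xl_comm kb kt m c a z) (by rw [xl_length]; omega) z
  rw [NN_comm h, hE, h1]
  ring

theorem EQ_swap_leg (hP : IsPsi q Lt P) (hk : kt ≤ Lt) (h4 : kb + kt = 2 * l) {i : ℕ} (hi : i + 1 < kt) {c a z : ℕ → ℂ}
    (hF : F q (a (i + 1)) (a i) ≠ 0) (hE : EQ l q kb kt m Pb P c (sw i a) z) : EQ l q kb kt m Pb P c a z := by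
  unfold EQ at hE ⊢
  have h1 := NN_swap_leg (kb := kb) (Pb := Pb) hP hk hi c a z
  have h2 := FP_sw q hi a
  have hl : (xl kb kt m c (sw i a) z).length = 2 * m + 2 * l := by
    rw [xl_length]
    omega
  have h3 : Phi l m (xl kb kt m c (sw i a) z) z = Phi l m (xl kb kt m c a z) z :=
    Phi_perm l m (List.Perm.append_right _ (perm_sw hi a)) hl z
  rw [h3] at hE
  refine mul_left_cancel₀ hF ?_
  linear_combination (∏ j ∈ range m, z j ^ ex l) * h1 + F q (a i) (a (i + 1)) * hE -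
    (FP (q ^ 2) kb c * Phi l m (xl kb kt m c a z) z) * h2

theorem EQ_swap_z (h : LOk Lb Lt kb kt) (hm : kt + m = Lt) (h4 : kb + kt = 2 * l) (hPb : IsPsi (q ^ 2) Lb Pb) (hP : IsPsi q Lt P)
    {i : ℕ} (hi : i + 1 < m) {c a z : ℕ → ℂ} (hT : z i ^ 2 + z i * z (i + 1) + z (i + 1) ^ 2 ≠ 0)
    (hE : EQ l q kb kt m Pb P c a (sw i z)) : EQ l q kb kt m Pb P c a z := by
  unfold EQ at hE ⊢
  have h1 := NN_swap_z hq h hPb hP (i := i) (by omega) c a z hT
  have hl : (xl kb kt m c a (sw i z)).length = 2 * m + 2 * l := by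
    rw [xl_length]
    omega
  have h3 : Phi l m (xl kb kt m c a (sw i z)) (sw i z) = Phi l m (xl kb kt m c a z) (sw i z) :=
    Phi_perm l m (List.Perm.append_left _ (List.Perm.append_left _
      (List.Perm.append (perm_sw hi z) (perm_sw hi z)))) hl (sw i z)
  have h5 : Phi l m (xl kb kt m c a z) (sw i z) = Phi l m (xl kb kt m c a z) z := Phi_swap_z l m hi _ z
  rw [h1, eqA_prod (ex l) hi z, h3, h5] at hE
  exact hE

omit hq in
private theorem eqA_sw_zero {i : ℕ} (a : ℕ → ℂ) : sw i a i = a (i + 1) := by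
  unfold sw
  rw [Equiv.swap_apply_left]

omit hq in
private theorem eqA_sw_one {i : ℕ} (a : ℕ → ℂ) : sw i a (i + 1) = a i := by
  unfold sw
  rw [Equiv.swap_apply_right]

omit hq in
private theorem eqA_sw_ne {i j : ℕ} (a : ℕ → ℂ) (h1 : j ≠ i) (h2 : j ≠ i + 1) : sw i a j = a j := by
  unfold sw
  rw [Equiv.swap_apply_of_ne_of_ne h1 h2]

private theorem eqA_NN (hP : IsPsi q Lt P) (hk : kt + 1 ≤ Lt) (c z : ℕ → ℂ) : ∀ (n i : ℕ) (a : ℕ → ℂ),
    i + 1 + n = kt → F q (a i) (a kt) = 0 → (∀ j, j < kt → j ≠ i → a j ^ 3 ≠ a i ^ 3) → a i ≠ 0 →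
    NN kb (kt + 1) Pb P c a z = 0 := by
  intro n
  induction n with
  | zero =>
    intro i a hi h0 ha hne
    have hi' : i + 1 = kt := by omega
    rw [← hi'] at h0
    refine NN_zero hP hk (i := i) (by omega) c a z h0 ?_
    intro h1
    rw [F_eq_zero_iff hq] at h0 h1
    rw [h0] at h1
    have h2 : (q - 1) * a i = 0 := by
      have h3 := eqA_q4 hq
      linear_combination (-1 : ℂ) * h1 - a i * h3
    rcases mul_eq_zero.1 h2 with h3 | h3
    · have h4 : q = 1 := by linear_combination h3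
      rw [h4] at hq
      norm_num at hq
    · exact hne h3
  | succ n ih =>
    intro i a hi h0 ha hne
    have h1 := NN_swap_leg (kb := kb) (kt := kt + 1) (Pb := Pb) hP hk (i := i) (by omega) c a z
    have h2 : NN kb (kt + 1) Pb P c (sw i a) z = 0 := by
      refine ih (i + 1) (sw i a) (by omega) ?_ ?_ ?_
      · rw [eqA_sw_one, eqA_sw_ne a (by omega) (by omega)]
        exact h0
      · intro j hj hj'
        rw [eqA_sw_one]
        by_cases hji : j = i
        · rw [hji, eqA_sw_zero]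
          exact ha (i + 1) (by omega) (by omega)
        · rw [eqA_sw_ne a hji hj']
          exact ha j hj hji
      · rw [eqA_sw_one]
        exact hne
    rw [h2, mul_zero] at h1
    exact (mul_eq_zero.1 h1).resolve_left (F_ne hq (ha (i + 1) (by omega) (by omega)))

theorem EQ_zero (hP : IsPsi q Lt P) (hk : kt + 1 ≤ Lt) {i : ℕ} (hi : i < kt) {c a z : ℕ → ℂ}
    (h0 : F q (a i) (a kt) = 0) (ha : ∀ j, j < kt → j ≠ i → a j ^ 3 ≠ a i ^ 3) (hne : a i ≠ 0) :
    EQ l q kb (kt + 1) m Pb P c a z := by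
  unfold EQ
  have h1 : NN kb (kt + 1) Pb P c a z = 0 :=
    eqA_NN hq hP hk c z (kt - 1 - i) i a (by omega) h0 ha hne
  have h2 : ∏ i ∈ range kt, F q (a i) (a kt) = 0 := Finset.prod_eq_zero (Finset.mem_range.2 hi) h0
  rw [h1, FP_succ, h2]
  ring

end

end QL
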