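import Pool.Agent.Lib.MP_216314_pr.QL.Phi
import Pool.Agent.Lib.MP_216314_pr.Q4.EqA
import Pool.Agent.Lib.MP_216314_pr.Q4.EqR

/-!
# The main identity for `2l` legs: definition
-/

set_option autoImplicit false

noncomputable section

namespace QL

open Finset CY Q4

def EQ (l : ℕ) (q : ℂ) {Lb Lt : ℕ} (kb kt m : ℕ) (Pb : Pat Lb → MvPolynomial ℕ ℂ) (P : Pat Lt → MvPolynomial ℕ ℂ)
    (c a z : ℕ → ℂ) : Prop :=
  NN kb kt Pb P c a z * ∏ j ∈ range m, z j ^ ex l =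
    FP q kt a * FP (q ^ 2) kb c * Phi l m (xl kb kt m c a z) z

end QL
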