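import Pool.Agent.Lib.MP_216314_pr.QL.EqR

/-!
# Left node

`w = z m`, `a 0 = q² w`. Left side: `NN_left`, `∏_{j<m+1} z_j² = ∏_{j<m} z_j² * w²`, the hypothesis `hE`, `Kf q Lt w (cat kt (tl4 a) z) = (1-q²) w ∏_{i<kt} (a_{i+1} - q w)² ∏_{j<m} (z_j - q w)²`,
`FP (q²) (kb+1) (consN w c) = ∏_{i<kb} F_{q²}(w, c_i) * FP (q²) kb c` (`FP_cons`, `tl4 (consN w c) = c`), `F_{q²}(w, c) = -q (c - q w)`. Right side: `Phi_rot`: `Phi (m+1) l z = Phi (m+1) l (consN (z m) z)` by `Phi_swap_z` `m` times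
(and `Phi_congr`); `Phi_perm` with `xl_left`, `a 0 = q² w`, `Phi_rec` for `consN w z` with `s = q²` (`(q²)² = q`, `(q²)² + q² + 1 = 0`): `q² w² ∏_{x ∈ xl'} (x - q w) Phi l m xl' z`, the product (`xl_prod`) is
`∏_{i<kt} (a_{i+1} - q w) * (w - q w) ∏_{i<kb} (c_i - q w) * ∏_{j<m} (z_j - q w)²`; `FP q (kt+1) a = ∏_{i<kt} F(a_0, a_{i+1}) * FP q kt (tl4 a)` (`FP_cons`), `F(q² w, a') = -q² (a' - q w)`.
The quotient is given by `hc`.
-/

set_option autoImplicit false

noncomputable section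

namespace QL

open Finset CY Q4

/-- the entry `z m` moved to the position `t` -/
private def EqF_w (m : ℕ) (z : ℕ → ℂ) (t : ℕ) : ℕ → ℂ :=
  fun i => if i < t then z i else if i = t then z m else z (i - 1)

private theorem EqF_swp (m : ℕ) (z : ℕ → ℂ) (t : ℕ) : swp t (EqF_w m z (t + 1)) = EqF_w m z t := by
  funext i
  unfold swp EqF_w
  rw [Equiv.swap_apply_def]
  by_cases h1 : i = t
  · subst h1
    rw [if_pos rfl, if_neg (by omega), if_pos rfl, if_neg (by omega), if_pos rfl]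
  · by_cases h2 : i = t + 1
    · subst h2
      rw [if_neg h1, if_pos rfl, if_pos (by omega), if_neg (by omega), if_neg (by omega)]
      rfl
    · rw [if_neg h1, if_neg h2]
      by_cases h3 : i < t
      · rw [if_pos (by omega), if_pos h3]
      · rw [if_neg (by omega), if_neg (by omega), if_neg h3, if_neg h1]

theorem Phi_rot (l m : ℕ) (x : List ℂ) (z : ℕ → ℂ) : Phi l (m + 1) x z = Phi l (m + 1) x (consN (z m) z) := by
  have hw : ∀ t, t ≤ m → Phi l (m + 1) x (EqF_w m z t) = Phi l (m + 1) x (EqF_w m z 0) := by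
    intro t
    induction t with
    | zero => intro _; rfl
    | succ t ih =>
      intro ht
      rw [← ih (by omega), ← Phi_swap_z l (m + 1) (i := t) (by omega) x (EqF_w m z (t + 1)), EqF_swp]
  have h0 : EqF_w m z 0 = consN (z m) z := by
    funext i
    unfold EqF_w consN
    rw [if_neg (by omega)]
  rw [← h0, ← hw m le_rfl]
  refine Phi_congr l (m + 1) x fun i hi => ?_
  unfold EqF_w
  by_cases h1 : i < m
  · rw [if_pos h1]
  · have h2 : i = m := by omega
    rw [if_neg h1, if_pos h2, h2]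

section

variable {q : ℂ} (hq : q ^ 2 + q + 1 = 0) {l Lb Lt kb kt m : ℕ} (h : LOk Lb Lt (kb + 1) kt) (hE' : Even Lt) (hm : kt + m = Lt)
  {Pb : Pat Lb → MvPolynomial ℕ ℂ} {P : Pat (Lt + 2) → MvPolynomial ℕ ℂ} {P' : Pat Lt → MvPolynomial ℕ ℂ}
  (hPb : IsPsi (q ^ 2) Lb Pb) (hP : IsPsi q (Lt + 2) P) (hP' : IsPsi q Lt P') (h3 : kb + kt + 1 = 2 * l)
include hq h hE' hm hPb hP hP' h3

theorem EQ_left (hc : (1 - q ^ 2) * (-q) ^ kb = (-q ^ 2) ^ kt * ((q ^ 2) ^ nu l * (1 - q))) {c a z : ℕ → ℂ} (hb : a 0 = q ^ 2 * z m)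
    (hE : EQ l q (kb + 1) kt m Pb P' (consN (z m) c) (tl4 a) z) :
    EQ l q kb (kt + 1) (m + 1) Pb P c a z := by
  unfold EQ at hE ⊢
  have hq3 : q ^ 3 = 1 := by linear_combination (q - 1) * hq
  have e1 := NN_left hq h hE' hPb hP hP' c a z (m := m) (by omega) hb
  have e2 : Kf q Lt (z m) (cat kt (tl4 a) z) = (1 - q ^ 2) * z m *
      ((∏ i ∈ range kt, (a (i + 1) - q * z m)) ^ 2 * (∏ j ∈ range m, (z j - q * z m)) ^ 2) := by
    unfold Kf
    rw [← hm, prod_range_add, ← prod_pow, ← prod_pow]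
    congr 2
    · refine prod_congr rfl fun i hi => ?_
      rw [cat_lt (mem_range.1 hi)]
      rfl
    · refine prod_congr rfl fun i _ => ?_
      rw [cat_ge]
  have e3 : FP (q ^ 2) (kb + 1) (consN (z m) c) =
      ((-q) ^ kb * ∏ i ∈ range kb, (c i - q * z m)) * FP (q ^ 2) kb c := by
    rw [FP_cons]
    congr 1
    rw [← card_range kb, ← prod_const, card_range, ← prod_mul_distrib]
    refine prod_congr rfl fun i _ => ?_
    have h1 : consN (z m) c 0 = z m := rfl
    have h2 : consN (z m) c (i + 1) = c i := rfl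
    rw [h1, h2]
    unfold F
    linear_combination (-q * c i) * hq3
  have e4 : FP q (kt + 1) a =
      ((-q ^ 2) ^ kt * ∏ i ∈ range kt, (a (i + 1) - q * z m)) * FP q kt (tl4 a) := by
    rw [FP_cons]
    congr 1
    rw [← card_range kt, ← prod_const, card_range, ← prod_mul_distrib]
    refine prod_congr rfl fun i _ => ?_
    rw [hb]
    unfold F
    ring
  have hlen : (xl (kb + 1) kt m (consN (z m) c) (tl4 a) z).length = 2 * m + 2 * l := by
    rw [xl_length]
    omega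
  have hlen2 : (xl kb (kt + 1) (m + 1) c a z).length = 2 * (m + 1) + 2 * l := by
    rw [xl_length]
    omega
  have e5 : Phi l (m + 1) (xl kb (kt + 1) (m + 1) c a z) z =
      (q ^ 2) ^ nu l * z m ^ ex l * ((∏ i ∈ range kt, (a (i + 1) - q * z m)) *
        ((∏ i ∈ range kb, (c i - q * z m)) * (z m - q * z m)) *
          (∏ j ∈ range m, (z j - q * z m)) ^ 2) *
        Phi l m (xl (kb + 1) kt m (consN (z m) c) (tl4 a) z) z := by
    have hs : (q ^ 2) ^ 2 + q ^ 2 + 1 = 0 := by linear_combination hq + q * hq3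
    have h1 := Phi_rec l m (xl (kb + 1) kt m (consN (z m) c) (tl4 a) z) hlen (consN (z m) z) hs
    have h2 : consN (z m) z 0 = z m := rfl
    have h3 : (fun i => consN (z m) z (i + 1)) = z := rfl
    rw [h2, h3] at h1
    rw [Phi_rot, Phi_perm l (m + 1) (xl_left kb kt m c a z) hlen2, hb, h1, xl_prod]
    have h4 : (q ^ 2) ^ 2 * z m = q * z m := by linear_combination (q * z m) * hq3
    rw [h4, prod_range_succ' (fun i => consN (z m) c i - q * z m)]
    rfl
  rw [e1, e2, e4, e5, prod_range_succ]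
  rw [e3] at hE
  generalize NN (kb + 1) kt Pb P' (consN (z m) c) (tl4 a) z = X at hE ⊢
  generalize Phi l m (xl (kb + 1) kt m (consN (z m) c) (tl4 a) z) z = Y at hE ⊢
  generalize FP q kt (tl4 a) = F1 at hE ⊢
  generalize FP (q ^ 2) kb c = F2 at hE ⊢
  generalize (∏ i ∈ range kt, (a (i + 1) - q * z m)) = A at hE ⊢
  generalize (∏ i ∈ range kb, (c i - q * z m)) = C at hE ⊢
  generalize (∏ j ∈ range m, (z j - q * z m)) = B at hE ⊢
  generalize (∏ x ∈ range m, z x ^ ex l) = Z at hE ⊢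
  generalize (-q) ^ kb = u at hE hc ⊢
  generalize (-q ^ 2) ^ kt = v at hE hc ⊢
  linear_combination ((1 - q ^ 2) * z m * (A ^ 2 * B ^ 2) * z m ^ ex l) * hE +
    (z m ^ ex l * z m * A ^ 2 * B ^ 2 * C * F1 * F2 * Y) * hc

end

end QL
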