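import Pool.Agent.Lib.MP_216314_pr.QL.EqS
import Pool.Agent.Lib.MP_216314_pr.QL.Base
import Pool.Agent.Lib.MP_216314_pr.QL.BaseOne
import Pool.Agent.Lib.MP_216314_pr.Q4.EqM

/-!
# The main identity for `2l` legs, all sizes

`legs`: for `kb, kt ≥ 1`, `kb + kt = 2l`, `m` glued strands, periods `Lb = kb + m`, `Lt = kt + m` even: `EQ` at generic points.
Induction on `m`. `m = 0`: `WB_all`. Step: if `kt ≥ 2`: `step` from `(kb + 1, kt - 1, m)`; if `kt = 1`: `EQ_comm` first. For `l = 1`: base `EQ_one`, `(1,1,m) → (0,2,m+1) → (2,0,m+1) → (1,1,m+2)`.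
-/

set_option autoImplicit false

noncomputable section

namespace QL

open Finset CY Q4

theorem cub {q : ℂ} (hq : q ^ 2 + q + 1 = 0) : q ^ 3 = 1 := by
  linear_combination (q - 1) * hq

theorem const_one {q : ℂ} (hq : q ^ 2 + q + 1 = 0) {l kb kt : ℕ} (h3 : kb + kt + 1 = 2 * l) :
    q ^ (2 * kb + 1) = q ^ (kt + nu l) := by
  rw [pow_eq_pow_mod _ (cub hq), pow_eq_pow_mod (kt + nu l) (cub hq)]
  congr 1
  unfold nu
  split_ifs <;> omega

theorem const_two {q : ℂ} (hq : q ^ 2 + q + 1 = 0) {l kb kt : ℕ} (h3 : kb + kt + 1 = 2 * l) :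
    (1 - q ^ 2) * (-q) ^ kb = (-q ^ 2) ^ kt * ((q ^ 2) ^ nu l * (1 - q)) := by
  have h1 : q ^ (2 + kb) = q ^ (2 * kt + 2 * nu l) := by
    rw [pow_eq_pow_mod _ (cub hq), pow_eq_pow_mod (2 * kt + 2 * nu l) (cub hq)]
    congr 1
    unfold nu
    split_ifs <;> omega
  have h2 : (-1 : ℂ) ^ kb = -(-1) ^ kt := by
    rcases Nat.even_or_odd kt with h | h
    · have h' : Odd kb := by
        obtain ⟨r, hr⟩ := h
        exact ⟨l - r - 1, by omega⟩
      rw [h.neg_one_pow, h'.neg_one_pow]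
    · have h' : Even kb := by
        obtain ⟨r, hr⟩ := h
        exact ⟨l - r - 1, by omega⟩
      rw [h.neg_one_pow, h'.neg_one_pow]
      ring
  have e0 : (1 - q ^ 2) = -(q ^ 2 * (1 - q)) := by
    linear_combination -cub hq
  have e1 : (-q) ^ kb = (-1) ^ kb * q ^ kb := neg_pow q kb
  have e2 : (-q ^ 2) ^ kt = (-1) ^ kt * (q ^ 2) ^ kt := neg_pow (q ^ 2) kt
  rw [e1, e2, h2, e0]
  rw [pow_add, pow_add, pow_mul, pow_mul] at h1
  linear_combination (-1) ^ kt * (1 - q) * h1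

theorem FP_cat {q : ℂ} (k : ℕ) (a z : ℕ → ℂ) :
    ∏ i ∈ range k, ∏ j ∈ Ioo i k, F q (cat k a z i) (cat k a z j) = FP q k a := by
  unfold FP
  refine Finset.prod_congr rfl fun i hi => Finset.prod_congr rfl fun j hj => ?_
  rw [cat_lt (Finset.mem_range.1 hi), cat_lt (Finset.mem_Ioo.1 hj).2]

/-- no glued strands -/
theorem EQ_base {q : ℂ} {l kb kt : ℕ} (hkb : 0 < kb) (hkt : 0 < kt) (hb : Even kb) (ht : Even kt)
    {Pb : Pat kb → MvPolynomial ℕ ℂ} {P : Pat kt → MvPolynomial ℕ ℂ} (hPb : IsPsi (q ^ 2) kb Pb) (hP : IsPsi q kt P)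
    (c a z : ℕ → ℂ) : EQ l q kb kt 0 Pb P c a z := by
  obtain ⟨ρb, hρb⟩ := exists_ref hb hkb
  obtain ⟨ρt, hρt⟩ := exists_ref ht hkt
  have h1 : NN kb kt Pb P c a z = FP (q ^ 2) kb c * FP q kt a := by
    unfold NN
    rw [WB_all _ _ ρb hρb ρt hρt, hPb.ref _ ρb hρb, hP.ref _ ρt hρt, FP_cat, FP_cat]
  unfold EQ
  rw [h1, Phi_zero, Finset.prod_range_zero]
  ring

/-- the step, at all sizes -/
theorem step' {q : ℂ} (hq : q ^ 2 + q + 1 = 0) {l kb kt m Lb Lt Lt' : ℕ} (h3 : kb + kt + 1 = 2 * l) (h0 : 0 < Lt')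
    (hLb : Lb = kb + (m + 1)) (hLt : Lt = kt + m + 2) (hLt' : Lt' = kt + m) (hE : Even Lt')
    {Pb : Pat Lb → MvPolynomial ℕ ℂ} {P : Pat Lt → MvPolynomial ℕ ℂ} (hPb : IsPsi (q ^ 2) Lb Pb) (hP : IsPsi q Lt P)
    (IH : ∀ {P' : Pat Lt' → MvPolynomial ℕ ℂ}, IsPsi q Lt' P' →
      ∀ c a z, Gn (kb + 1) kt m c a z → EQ l q (kb + 1) kt m Pb P' c a z)
    (c a z : ℕ → ℂ) (hG : Gn kb (kt + 1) (m + 1) c a z) : EQ l q kb (kt + 1) (m + 1) Pb P c a z := by
  subst hLb hLt hLt'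
  obtain ⟨P', hP'⟩ := exists_psi' hq h0 hE
  exact step hq (Lb := kb + (m + 1)) (Lt := kt + m) ⟨by omega, by omega, by omega, by omega, h0⟩ hE rfl hPb hP hP' h3
    (const_one hq h3) (const_two hq h3) (IH hP') c a z hG

/-- more than two legs -/
theorem legs_aux {l : ℕ} (hl : 2 ≤ l) (m : ℕ) : ∀ (kb kt Lb Lt : ℕ), 0 < kb → 0 < kt → kb + kt = 2 * l →
    Lb = kb + m → Lt = kt + m → Even Lb → ∀ {q : ℂ}, q ^ 2 + q + 1 = 0 → ∀ {Pb : Pat Lb → MvPolynomial ℕ ℂ}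
    {P : Pat Lt → MvPolynomial ℕ ℂ}, IsPsi (q ^ 2) Lb Pb → IsPsi q Lt P → ∀ c a z, Gn kb kt m c a z →
      EQ l q kb kt m Pb P c a z := by
  induction m with
  | zero =>
    intro kb kt Lb Lt hkb hkt h3 hLb hLt hE q hq Pb P hPb hP c a z _
    rw [add_zero] at hLb hLt
    subst hLb hLt
    have hE' : Even Lt := by
      obtain ⟨r, hr⟩ := hE
      exact ⟨l - r, by omega⟩
    exact EQ_base hkb hkt hE hE' hPb hP c a z
  | succ m ih =>
    -- at least two legs above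
    have key : ∀ (kb kt Lb Lt : ℕ), 0 < kb → 2 ≤ kt → kb + kt = 2 * l →
        Lb = kb + (m + 1) → Lt = kt + (m + 1) → Even Lb → ∀ {q : ℂ}, q ^ 2 + q + 1 = 0 →
        ∀ {Pb : Pat Lb → MvPolynomial ℕ ℂ} {P : Pat Lt → MvPolynomial ℕ ℂ}, IsPsi (q ^ 2) Lb Pb → IsPsi q Lt P →
        ∀ c a z, Gn kb kt (m + 1) c a z → EQ l q kb kt (m + 1) Pb P c a z := by
      intro kb kt Lb Lt hkb hkt h3 hLb hLt hE q hq Pb P hPb hP c a z hG
      obtain ⟨kt', rfl⟩ : ∃ kt', kt = kt' + 1 := ⟨kt - 1, by omega⟩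
      have hE' : Even (kt' + m) := by
        obtain ⟨r, hr⟩ := hE
        exact ⟨l + m - r, by omega⟩
      exact step' hq (by omega) (by omega) hLb (by omega) rfl hE' hPb hP
        (fun hP' c a z hG' => ih (kb + 1) kt' Lb (kt' + m) (by omega) (by omega) (by omega) (by omega) rfl hE
          hq hPb hP' c a z hG') c a z hG
    intro kb kt Lb Lt hkb hkt h3 hLb hLt hE q hq Pb P hPb hP c a z hG
    by_cases h2 : 2 ≤ kt
    · exact key kb kt Lb Lt hkb h2 h3 hLb hLt hE hq hPb hP c a z hG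
    · have hE' : Even Lt := by
        obtain ⟨r, hr⟩ := hE
        exact ⟨l + m + 1 - r, by omega⟩
      have hP2 : IsPsi ((q ^ 2) ^ 2) Lt P := by
        rw [EqM_sq hq]
        exact hP
      refine EQ_comm hq ⟨by omega, by omega, by omega, by omega, by omega⟩ h3 ?_
      exact key kt kb Lt Lb hkt (by omega) (by omega) hLt hLb hE' (EqM_root hq) hP2 hPb a c z
        (gn_of_perm (gl_comm kb kt (m + 1) c a z) hG)

/-- two legs -/
theorem legs_one (n : ℕ) : ∀ (L m : ℕ), L = 2 * n + 2 → m = 2 * n + 1 → ∀ {q : ℂ}, q ^ 2 + q + 1 = 0 →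
    ∀ {Pb P : Pat L → MvPolynomial ℕ ℂ}, IsPsi (q ^ 2) L Pb → IsPsi q L P → ∀ c a z, Gn 1 1 m c a z →
      EQ 1 q 1 1 m Pb P c a z := by
  induction n with
  | zero =>
    intro L m hL hm q hq Pb P hPb hP c a z _
    have hL' : L = 2 := by omega
    have hm' : m = 1 := by omega
    subst hL' hm'
    exact EQ_one hq hPb hP c a z
  | succ n ih =>
    -- no leg below, two legs above
    have s1 : ∀ (Lb Lt : ℕ), Lb = 2 * n + 2 → Lt = 2 * n + 4 → ∀ {q : ℂ}, q ^ 2 + q + 1 = 0 →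
        ∀ {Pb : Pat Lb → MvPolynomial ℕ ℂ} {P : Pat Lt → MvPolynomial ℕ ℂ}, IsPsi (q ^ 2) Lb Pb → IsPsi q Lt P →
        ∀ c a z, Gn 0 2 (2 * n + 2) c a z → EQ 1 q 0 2 (2 * n + 2) Pb P c a z := by
      intro Lb Lt hLb hLt q hq Pb P hPb hP c a z hG
      exact step' (Lt' := Lb) (kb := 0) (kt := 1) (m := 2 * n + 1) hq (by omega) (by omega) (by omega) (by omega)
        (by omega) ⟨n + 1, by omega⟩ hPb hP (fun hP' c a z hG' => ih Lb (2 * n + 1) hLb rfl hq hPb hP' c a z hG') c a z hG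
    intro L m hL hm q hq Pb P hPb hP c a z hG
    subst hm
    refine step' (Lt' := 2 * n + 2) (kb := 1) (kt := 0) (m := 2 * n + 2) hq (by omega) (by omega) (by omega) (by omega)
      (by omega) ⟨n + 1, by omega⟩ hPb hP (fun {P'} hP' c a z hG' => ?_) c a z hG
    have hP2 : IsPsi ((q ^ 2) ^ 2) (2 * n + 2) P' := by
      rw [EqM_sq hq]
      exact hP'
    refine EQ_comm hq ⟨by omega, by omega, by omega, by omega, by omega⟩ rfl ?_
    exact s1 (2 * n + 2) L rfl (by omega) (EqM_root hq) hP2 hPb a c z (gn_of_perm (gl_comm 2 0 (2 * n + 2) c a z) hG')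

/-- `2l` legs: the main identity -/
theorem legs {l : ℕ} {kb kt m Lb Lt : ℕ} (hkb : 0 < kb) (hkt : 0 < kt) (h : kb + kt = 2 * l)
    (hLb : Lb = kb + m) (hLt : Lt = kt + m) (hE : Even Lb) {q : ℂ} (hq : q ^ 2 + q + 1 = 0)
    {Pb : Pat Lb → MvPolynomial ℕ ℂ} {P : Pat Lt → MvPolynomial ℕ ℂ} (hPb : IsPsi (q ^ 2) Lb Pb) (hP : IsPsi q Lt P)
    (c a z : ℕ → ℂ) (hG : Gn kb kt m c a z) : EQ l q kb kt m Pb P c a z := by
  by_cases hl : 2 ≤ l
  · exact legs_aux hl m kb kt Lb Lt hkb hkt h hLb hLt hE hq hPb hP c a z hG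
  · have h1 : kb = 1 := by omega
    have h2 : kt = 1 := by omega
    have h3 : l = 1 := by omega
    have h4 : Lt = Lb := by omega
    subst h1 h2 h3 h4
    obtain ⟨r, hr⟩ := hE
    exact legs_one (r - 1) Lt m (by omega) (by omega) hq hPb hP c a z hG

end QL
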