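import Pool.Agent.Lib.MP_216314_pr.QL.EqD

/-!
# The difference of the two sides as a polynomial in the last top leg

`NN_poly` times the constant `∏ z_j²` (degree `≤ Lt + 1`), minus `FP q (kt+1) (update a kt b) = FP q kt a * ∏_{i<kt} F(a_i, b)` (`FP_succ`, `FP_congr`; degree `≤ kt` in `b`, `F q a b = C (q a) - C (q²) X`) times a constant times `Phi (m+1) (l ++ [b]) z` (`xl_last`,
`Phi_perm`, `Phi_update` with `m + 1`: `l.length = kt + kb + 2(m+1) = 2(m+1) + 3`, degree `≤ m + 1`): degree `≤ kt + m + 1 = Lt + 1`.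
-/

set_option autoImplicit false

noncomputable section

namespace QL

open Finset CY Q4

section

variable {q : ℂ} {l Lb Lt kb kt m : ℕ} (hm : kt + m = Lt)
  {Pb : Pat Lb → MvPolynomial ℕ ℂ} {P : Pat (Lt + 2) → MvPolynomial ℕ ℂ} 
  (hP : IsPsi q (Lt + 2) P) (h3 : kb + kt + 1 = 2 * l)
include hm hP h3


theorem EQ_poly (c a z : ℕ → ℂ) : ∃ p : Polynomial ℂ, p.natDegree ≤ Lt + 1 ∧
    ∀ b : ℂ, NN kb (kt + 1) Pb P c (Function.update a kt b) z * ∏ j ∈ range (m + 1), z j ^ ex l -
      FP q (kt + 1) (Function.update a kt b) * FP (q ^ 2) kb c *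
        Phi l (m + 1) (xl kb (kt + 1) (m + 1) c (Function.update a kt b) z) z = p.eval b := by
  obtain ⟨p1, hd1, hp1⟩ := NN_poly (kb := kb) (kt := kt) (Pb := Pb) hP c a z
  obtain ⟨x, hl, hperm⟩ := xl_last kb kt (m + 1) c a z
  have hl' : x.length + 1 = 2 * (m + 1) + 2 * l := by omega
  obtain ⟨p2, hd2, hp2⟩ := Phi_update (l := l) (by omega) (m + 1) x hl' z
  refine ⟨p1 * Polynomial.C (∏ j ∈ range (m + 1), z j ^ ex l) -
    Polynomial.C (FP q kt a * FP (q ^ 2) kb c) *
      ((∏ i ∈ range kt, (Polynomial.C (q * a i) - Polynomial.C (q ^ 2) * Polynomial.X)) * p2), ?_, ?_⟩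
  · have h1 : (p1 * Polynomial.C (∏ j ∈ range (m + 1), z j ^ ex l)).natDegree ≤ Lt + 1 :=
      (Polynomial.natDegree_mul_C_le _ _).trans hd1
    have h2 : (∏ i ∈ range kt, (Polynomial.C (q * a i) - Polynomial.C (q ^ 2) * Polynomial.X)).natDegree ≤ kt := by
      refine (Polynomial.natDegree_prod_le _ _).trans ?_
      refine (Finset.sum_le_card_nsmul _ _ 1 fun i _ => ?_).trans ?_
      · refine (Polynomial.natDegree_sub_le_of_le (m := 0) (n := 1) ?_ ?_).trans ?_
        · rw [Polynomial.natDegree_C]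
        · exact (Polynomial.natDegree_C_mul_le _ _).trans Polynomial.natDegree_X_le
        · simp
      · rw [Finset.card_range, smul_eq_mul, mul_one]
    have h4 : (Polynomial.C (FP q kt a * FP (q ^ 2) kb c) *
      ((∏ i ∈ range kt, (Polynomial.C (q * a i) - Polynomial.C (q ^ 2) * Polynomial.X)) * p2)).natDegree ≤ Lt + 1 := by
      refine (Polynomial.natDegree_C_mul_le _ _).trans ?_
      refine Polynomial.natDegree_mul_le.trans ?_
      omega
    exact (Polynomial.natDegree_sub_le_of_le h1 h4).trans (by simp)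
  · intro b
    have e1 : FP q (kt + 1) (Function.update a kt b) = FP q kt a * ∏ i ∈ range kt, F q (a i) b := by
      rw [FP_succ, FP_congr (a' := a) fun i hi => Function.update_of_ne (Nat.ne_of_lt hi) _ _]
      congr 1
      refine Finset.prod_congr rfl fun i hi => ?_
      rw [Function.update_self, Function.update_of_ne (Nat.ne_of_lt (Finset.mem_range.1 hi))]
    have e2 : Phi l (m + 1) (xl kb (kt + 1) (m + 1) c (Function.update a kt b) z) z = p2.eval b := by
      rw [← hp2 b]
      refine Phi_perm l (m + 1) (hperm b) ?_ z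
      rw [xl_length]
      omega
    rw [hp1 b, e1, e2, Polynomial.eval_sub, Polynomial.eval_mul, Polynomial.eval_C, Polynomial.eval_mul,
      Polynomial.eval_C, Polynomial.eval_mul, Polynomial.eval_prod]
    have e3 : ∏ i ∈ range kt, Polynomial.eval b (Polynomial.C (q * a i) - Polynomial.C (q ^ 2) * Polynomial.X) =
        ∏ i ∈ range kt, F q (a i) b := by
      refine Finset.prod_congr rfl fun i _ => ?_
      simp [F]
    rw [e3]
    ring

end

end QL
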