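import Pool.Agent.Lib.MP_216314_pr.QL.EqD

/-!
# Right node

`b = a kt = q z_0`, so `z_0 = q² b`. Left side: `NN_right`, `∏_{j<m+1} z_j² = z_0² ∏ (tl4 z)_j²` (`prod_range_succ'`), the hypothesis `hE`, and
`Kf q Lt b (cat kt a (tl4 z)) = (1-q²) b ∏_{i<kt} (a_i - q b)² ∏_{j<m} (z_{j+1} - q b)²` (`Lt = kt + m`, `prod_range_add`), `FP (q²) (kb+1) (update c kb z_0) = FP (q²) kb c * ∏_{i<kb} F_{q²}(c_i, z_0)` (`FP_succ`, `FP_congr`),
`F_{q²}(c, z_0) = q² (c - q b)`. Right side: `Phi_perm` with `xl_right`, `a kt = q * z 0`, `Phi_rec` with `s = q`: `q z_0² ∏_{x ∈ xl'} (x - q² z_0) * Phi l m xl' (tl4 z)`, the product over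
`xl' = xl (kb+1) kt m (update c kb z_0) a (tl4 z)` is `∏_{i<kt}(a_i - q² z_0) ∏_{i<kb} (c_i - q² z_0) (z_0 - q² z_0) ∏_{j<m} (z_{j+1} - q² z_0)²` (`List.prod_range_succ`..; `q² z_0 = q b`); `FP q (kt+1) a = FP q kt a ∏_{i<kt} F(a_i, b)`,
`F(a, b) = q (a - q b)`. The quotient of the two sides is `q^(2 kb - kt)`: hypothesis `hc`.
-/

set_option autoImplicit false

noncomputable section

namespace QL

open Finset CY Q4

section

variable {q : ℂ} (hq : q ^ 2 + q + 1 = 0) {l Lb Lt kb kt m : ℕ} (h : LOk Lb Lt (kb + 1) kt) (hE' : Even Lt) (hm : kt + m = Lt)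
  {Pb : Pat Lb → MvPolynomial ℕ ℂ} {P : Pat (Lt + 2) → MvPolynomial ℕ ℂ} {P' : Pat Lt → MvPolynomial ℕ ℂ}
  (hPb : IsPsi (q ^ 2) Lb Pb) (hP : IsPsi q (Lt + 2) P) (hP' : IsPsi q Lt P') (h3 : kb + kt + 1 = 2 * l)
include hq h hE' hm hPb hP hP' h3

theorem EQ_right (hc : q ^ (2 * kb + 1) = q ^ (kt + nu l)) {c a z : ℕ → ℂ} (hb : a kt = q * z 0)
    (hE : EQ l q (kb + 1) kt m Pb P' (Function.update c kb (z 0)) a (tl4 z)) :
    EQ l q kb (kt + 1) (m + 1) Pb P c a z := by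
  have hq3 : q ^ 3 = 1 := by
    have : q ^ 3 - 1 = (q - 1) * (q ^ 2 + q + 1) := by ring
    rw [hq, mul_zero] at this
    exact sub_eq_zero.1 this
  have hz : z 0 = q ^ 2 * a kt := by
    rw [hb, ← mul_assoc, ← pow_succ, hq3, one_mul]
  have hN := NN_right hq h hE' hPb hP hP' c a z hz
  unfold EQ at hE ⊢
  have hp : ∏ j ∈ range (m + 1), z j ^ ex l = (∏ j ∈ range m, tl4 z j ^ ex l) * z 0 ^ ex l := by
    rw [Finset.prod_range_succ']
    rfl
  have hupd : ∀ i, i < kb → Function.update c kb (z 0) i = c i := fun i hi =>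
    Function.update_of_ne (by omega) _ _
  have hFc : FP (q ^ 2) (kb + 1) (Function.update c kb (z 0)) =
      FP (q ^ 2) kb c * (q ^ (2 * kb) * ∏ i ∈ range kb, (c i - q ^ 2 * z 0)) := by
    rw [FP_succ, FP_congr hupd, Function.update_self]
    congr 1
    have h1 : ∀ i ∈ range kb, F (q ^ 2) (Function.update c kb (z 0) i) (z 0) =
        q ^ 2 * (c i - q ^ 2 * z 0) := fun i hi => by
      rw [hupd i (Finset.mem_range.1 hi)]
      unfold F
      ring
    rw [Finset.prod_congr rfl h1, Finset.prod_mul_distrib, Finset.prod_const, Finset.card_range, ← pow_mul]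
  have hFa : FP q (kt + 1) a = FP q kt a * (q ^ kt * ∏ i ∈ range kt, (a i - q ^ 2 * z 0)) := by
    rw [FP_succ]
    congr 1
    have h1 : ∀ i ∈ range kt, F q (a i) (a kt) = q * (a i - q ^ 2 * z 0) := fun i _ => by
      rw [hb]
      unfold F
      ring
    rw [Finset.prod_congr rfl h1, Finset.prod_mul_distrib, Finset.prod_const, Finset.card_range]
  have hK : Kf q Lt (a kt) (cat kt a (tl4 z)) = (1 - q ^ 2) * (q * z 0) *
      ((∏ i ∈ range kt, (a i - q ^ 2 * z 0)) ^ 2 * (∏ j ∈ range m, (tl4 z j - q ^ 2 * z 0)) ^ 2) := by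
    unfold Kf
    rw [← hm, Finset.prod_range_add, hb, ← Finset.prod_pow, ← Finset.prod_pow]
    congr 1
    congr 1
    · refine Finset.prod_congr rfl fun i hi => ?_
      rw [cat_lt (Finset.mem_range.1 hi)]
      ring
    · refine Finset.prod_congr rfl fun i _ => ?_
      rw [cat_ge]
      ring
  have hl1 : (xl kb (kt + 1) (m + 1) c a z).length = 2 * (m + 1) + 2 * l := by
    rw [xl_length]
    omega
  have hl2 : (xl (kb + 1) kt m (Function.update c kb (z 0)) a (tl4 z)).length = 2 * m + 2 * l := by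
    rw [xl_length]
    omega
  have hPh : Phi l (m + 1) (xl kb (kt + 1) (m + 1) c a z) z = q ^ nu l * z 0 ^ ex l *
      ((∏ i ∈ range kt, (a i - q ^ 2 * z 0)) * ((∏ i ∈ range kb, (c i - q ^ 2 * z 0)) * (z 0 - q ^ 2 * z 0)) *
        (∏ j ∈ range m, (tl4 z j - q ^ 2 * z 0)) ^ 2) *
      Phi l m (xl (kb + 1) kt m (Function.update c kb (z 0)) a (tl4 z)) (tl4 z) := by
    rw [Phi_perm l (m + 1) (xl_right kb kt m c a z) hl1 z, hb, Phi_rec l m _ hl2 z hq, xl_prod,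
      Finset.prod_range_succ, Function.update_self,
      Finset.prod_congr rfl (fun i hi => by rw [hupd i (Finset.mem_range.1 hi)] :
        ∀ i ∈ range kb, Function.update c kb (z 0) i - q ^ 2 * z 0 = c i - q ^ 2 * z 0)]
    rfl
  rw [hFc] at hE
  rw [hN, hp, hK, hFa, hPh]
  rw [pow_add, pow_one, pow_add] at hc
  generalize NN (kb + 1) kt Pb P' (Function.update c kb (z 0)) a (tl4 z) = X at hE ⊢
  generalize Phi l m (xl (kb + 1) kt m (Function.update c kb (z 0)) a (tl4 z)) (tl4 z) = Y at hE ⊢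
  generalize FP q kt a = F1 at hE ⊢
  generalize FP (q ^ 2) kb c = F2 at hE ⊢
  generalize (∏ i ∈ range kt, (a i - q ^ 2 * z 0)) = A at hE ⊢
  generalize (∏ i ∈ range kb, (c i - q ^ 2 * z 0)) = C at hE ⊢
  generalize (∏ j ∈ range m, (tl4 z j - q ^ 2 * z 0)) = B at hE ⊢
  generalize (∏ x ∈ range m, tl4 z x ^ ex l) = Z at hE ⊢
  generalize q ^ (2 * kb) = u at hE hc ⊢
  generalize q ^ kt = v at hE hc ⊢
  generalize q ^ nu l = w at hE hc ⊢
  linear_combination ((1 - q ^ 2) * (q * z 0) * (A ^ 2 * B ^ 2) * z 0 ^ ex l) * hE +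
    ((1 - q ^ 2) * z 0 * A ^ 2 * B ^ 2 * C * z 0 ^ ex l * F1 * F2 * Y) * hc

end

end QL
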