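import Pool.Agent.Lib.MP_216314_pr.QL.EqM

/-!
# The homogeneous limit for `2l` legs

The legs and the entries are `1 + t (i + 1)` with different `i`; `t → 0`.
-/

set_option autoImplicit false

noncomputable section

namespace QL

open Finset CY Q4

private theorem Hom_X {x : ℝ → ℕ → ℂ} (hx : ∀ i, Continuous fun t => x t i) {f : ℝ → Polynomial ℂ}
    (hf : ∀ i, Continuous fun t => DD (x t) i (f t)) (i : ℕ) :
    Continuous fun t => DD (x t) i (Polynomial.X * f t) := by
  cases i with
  | zero =>
    have e : (fun t => DD (x t) 0 (Polynomial.X * f t)) = fun t => x t 0 * DD (x t) 0 (f t) :=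
      funext fun t => DD_X_mul_zero (x t) (f t)
    rw [e]
    exact (hx 0).mul (hf 0)
  | succ i =>
    have e : (fun t => DD (x t) (i + 1) (Polynomial.X * f t)) =
        fun t => x t (i + 1) * DD (x t) (i + 1) (f t) + DD (x t) i (f t) :=
      funext fun t => DD_X_mul (x t) i (f t)
    rw [e]
    exact ((hx (i + 1)).mul (hf (i + 1))).add (hf i)

private theorem Hom_one {x : ℝ → ℕ → ℂ} (i : ℕ) : Continuous fun t => DD (x t) i (1 : Polynomial ℂ) := by
  have e : (fun t => DD (x t) i (1 : Polynomial ℂ)) = fun _ => if i = 0 then 1 else 0 :=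
    funext fun t => DD_one (x t) i
  rw [e]
  exact continuous_const

private theorem Hom_pow {x : ℝ → ℕ → ℂ} (hx : ∀ i, Continuous fun t => x t i) (k : ℕ) (i : ℕ) :
    Continuous fun t => DD (x t) i (Polynomial.X ^ k : Polynomial ℂ) := by
  induction k generalizing i with
  | zero =>
    rw [pow_zero]
    exact Hom_one i
  | succ k ih =>
    rw [pow_succ']
    exact Hom_X hx ih i

private theorem Hom_cub {x : ℝ → ℕ → ℂ} (hx : ∀ i, Continuous fun t => x t i) {f : ℝ → Polynomial ℂ}
    (hf : ∀ i, Continuous fun t => DD (x t) i (f t)) {c : ℝ → ℂ} (hc : Continuous c) (i : ℕ) :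
    Continuous fun t => DD (x t) i ((Polynomial.X ^ 3 - Polynomial.C (c t)) * f t) := by
  have e : (fun t => DD (x t) i ((Polynomial.X ^ 3 - Polynomial.C (c t)) * f t)) =
      fun t => DD (x t) i (Polynomial.X * (Polynomial.X * (Polynomial.X * f t))) - c t * DD (x t) i (f t) := by
    funext t
    rw [← DD_C_mul, ← DD_sub]
    congr 1
    ring
  rw [e]
  exact (Hom_X hx (Hom_X hx (Hom_X hx hf)) i).sub (hc.mul (hf i))

private theorem Hom_pre {x : ℝ → ℕ → ℂ} {u v : Polynomial ℂ} {g : ℝ → ℕ → Polynomial ℂ}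
    (hu : ∀ i, Continuous fun t => DD (x t) i u) (hv : ∀ i, Continuous fun t => DD (x t) i v)
    (hg : ∀ j i, Continuous fun t => DD (x t) i (g t j)) (i j : ℕ) :
    Continuous fun t => DD (x t) i (pre u v (g t) j) := by
  unfold pre
  by_cases h0 : j = 0
  · simp only [if_pos h0]
    exact hu i
  · by_cases h1 : j = 1
    · simp only [if_neg h0, if_pos h1]
      exact hv i
    · simp only [if_neg h0, if_neg h1]
      exact hg (j - 2) i

theorem DD_cont (l m : ℕ) {x : ℝ → ℕ → ℂ} {z : ℝ → ℕ → ℂ} (hx : ∀ i, Continuous fun t => x t i) (hz : ∀ i, Continuous fun t => z t i)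
    (i j : ℕ) : Continuous fun t => DD (x t) i (GG l m (z t) j) := by
  induction m generalizing z i j with
  | zero =>
    by_cases h0 : j < 2 * l
    · have e : (fun t => DD (x t) i (GG l 0 (z t) j)) = fun t => DD (x t) i (Polynomial.X ^ j) := by
        funext t
        unfold GG
        rw [if_pos h0]
      rw [e]
      exact Hom_pow hx j i
    · have e : (fun t => DD (x t) i (GG l 0 (z t) j)) = fun _ => 0 := by
        funext t
        unfold GG
        rw [if_neg h0]
        have h1 := DD_sub (x t) i 0 0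
        rw [sub_zero] at h1
        rw [h1, sub_self]
      rw [e]
      exact continuous_const
  | succ m ih =>
    have e : (fun t => DD (x t) i (GG l (m + 1) (z t) j)) = fun t => DD (x t) i
        (pre (Polynomial.X ^ e1 l) (Polynomial.X ^ e2 l) ((fun t => fun j =>
          (Polynomial.X ^ 3 - Polynomial.C (z t 0 ^ 3)) * GG l m (fun i => z t (i + 1)) j :
          ℝ → ℕ → Polynomial ℂ) t) j) := rfl
    rw [e]
    refine Hom_pre (Hom_pow hx _) (Hom_pow hx _) (fun j i => ?_) i j
    exact Hom_cub hx (fun i => ih (fun i => hz (i + 1)) i j) ((hz 0).pow 3) i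

/-- the points -/
private def Hom_w (t : ℝ) (i : ℕ) : ℂ := ((1 + t * ((i : ℝ) + 1) : ℝ) : ℂ)

private theorem Hom_w_cont (i : ℕ) : Continuous fun t => Hom_w t i := by
  unfold Hom_w
  exact Complex.continuous_ofReal.comp (continuous_const.add (continuous_id.mul continuous_const))

private theorem Hom_w_zero (i : ℕ) : Hom_w 0 i = 1 := by
  unfold Hom_w
  simp

private theorem Hom_list (f : ℕ → ℂ) (k : ℕ) (l : List ℂ) (i : ℕ) :
    ((List.range k).map f ++ l).getD i 0 = if i < k then f i else l.getD (i - k) 0 := by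
  split_ifs with h
  · rw [List.getD_append _ _ _ _ (by rw [List.length_map, List.length_range]; exact h),
      List.getD_eq_getElem _ _ (by rw [List.length_map, List.length_range]; exact h), List.getElem_map,
      List.getElem_range]
  · rw [List.getD_append_right _ _ _ _ (by rw [List.length_map, List.length_range]; omega),
      List.length_map, List.length_range]

private theorem Hom_list_cont {f : ℝ → ℕ → ℂ} {l : ℝ → List ℂ} (k : ℕ) (hf : ∀ i, Continuous fun t => f t i)
    (hl : ∀ i, Continuous fun t => (l t).getD i 0) (i : ℕ) :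
    Continuous fun t => ((List.range k).map (f t) ++ l t).getD i 0 := by
  simp only [Hom_list]
  by_cases h : i < k
  · simp only [if_pos h]
    exact hf i
  · simp only [if_neg h]
    exact hl (i - k)

private theorem Hom_gl (kb kt n : ℕ) (t : ℝ) :
    gl kb kt n (fun i => Hom_w t (i + kt)) (fun i => Hom_w t i) (fun i => Hom_w t (i + (kt + kb))) =
      (List.range (kt + (kb + n))).map (Hom_w t) := by
  unfold gl
  rw [List.range_add, List.map_append, List.map_map, List.range_add, List.map_append, List.map_map]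
  refine congrArg₂ (· ++ ·) rfl (congrArg₂ (· ++ ·) ?_ ?_)
  · apply List.map_congr_left
    intro i _
    simp only [Function.comp_apply]
    rw [add_comm]
  · apply List.map_congr_left
    intro i _
    simp only [Function.comp_apply]
    rw [show kt + (kb + i) = i + (kt + kb) by omega]

private theorem Hom_gn (kb kt n : ℕ) {t : ℝ} (ht : 0 < t) :
    Gn kb kt n (fun i => Hom_w t (i + kt)) (fun i => Hom_w t i) (fun i => Hom_w t (i + (kt + kb))) := by
  have hpos : ∀ i : ℕ, 0 < 1 + t * ((i : ℝ) + 1) := by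
    intro i
    positivity
  constructor
  · intro x hx
    rw [Hom_gl, List.mem_map] at hx
    obtain ⟨i, _, rfl⟩ := hx
    unfold Hom_w
    exact Complex.ofReal_ne_zero.2 (hpos i).ne'
  · rw [Hom_gl, List.pairwise_map]
    refine List.pairwise_lt_range.imp ?_
    intro i j hij h
    unfold Hom_w at h
    rw [← Complex.ofReal_pow, ← Complex.ofReal_pow, Complex.ofReal_inj] at h
    have h1 : 1 + t * ((i : ℝ) + 1) < 1 + t * ((j : ℝ) + 1) := by
      have h2 : (i : ℝ) < (j : ℝ) := by exact_mod_cast hij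
      have h3 : (i : ℝ) + 1 < (j : ℝ) + 1 := by linarith
      have := mul_lt_mul_of_pos_left h3 ht
      linarith
    have h2 := pow_lt_pow_left₀ h1 (hpos i).le (by norm_num : (3 : ℕ) ≠ 0)
    exact absurd h h2.ne

private theorem Hom_cat_cont {a z : ℝ → ℕ → ℂ} (k : ℕ) (ha : ∀ i, Continuous fun t => a t i)
    (hz : ∀ i, Continuous fun t => z t i) : Continuous fun t => cat k (a t) (z t) := by
  refine continuous_pi fun i => ?_
  unfold cat
  by_cases h : i < k
  · simp only [if_pos h]
    exact ha i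
  · simp only [if_neg h]
    exact hz (i - k)

private theorem Hom_WB_cont {Lb Lt : ℕ} (kb kt : ℕ) (Pb : Pat Lb → MvPolynomial ℕ ℂ) (P : Pat Lt → MvPolynomial ℕ ℂ)
    {u v : ℝ → ℕ → ℂ} (hu : Continuous u) (hv : Continuous v) :
    Continuous fun t => WB kb kt (ev Pb (u t)) (ev P (v t)) := by
  unfold WB ev
  refine continuous_finsetSum _ fun β _ => continuous_finsetSum _ fun α _ => ?_
  exact (((MvPolynomial.continuous_eval (Pb β)).comp hu).mul ((MvPolynomial.continuous_eval (P α)).comp hv)).mul
    continuous_const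

private theorem Hom_FP_cont (q : ℂ) (k : ℕ) {a : ℝ → ℕ → ℂ} (ha : ∀ i, Continuous fun t => a t i) :
    Continuous fun t => FP q k (a t) := by
  unfold FP
  refine continuous_finsetProd _ fun i _ => continuous_finsetProd _ fun j _ => ?_
  unfold F
  exact (continuous_const.mul (ha i)).sub (continuous_const.mul (ha j))

private theorem Hom_Phi_cont (l m : ℕ) {x : ℝ → List ℂ} {z : ℝ → ℕ → ℂ} (hx : ∀ i, Continuous fun t => (x t).getD i 0)
    (hz : ∀ i, Continuous fun t => z t i) : Continuous fun t => Phi l m (x t) (z t) := by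
  unfold Phi PhF
  refine Continuous.matrix_det ?_
  refine continuous_matrix fun i j => ?_
  exact DD_cont l m hx hz i j

/-- the prefactor at `1` -/
theorem FP_one (q : ℂ) (k : ℕ) : FP q k (fun _ => 1) = (q - q ^ 2) ^ k.choose 2 := by
  induction k with
  | zero =>
    unfold FP
    simp
  | succ k ih =>
    rw [FP_succ, ih]
    unfold F
    rw [Finset.prod_const, Finset.card_range, mul_one, mul_one, ← pow_add, Nat.choose_succ_succ' k 1,
      Nat.choose_one_right, add_comm]

private theorem Hom_cat_one (k : ℕ) : cat k (fun _ => (1 : ℂ)) (fun _ => 1) = fun _ => 1 := by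
  funext i
  unfold cat
  split_ifs <;> rfl

private theorem Hom_xl_one (kb kt m i : ℕ) (hi : i < 2 * m + (kt + kb)) :
    (xl kb kt m (fun _ => (1 : ℂ)) (fun _ => 1) (fun _ => 1)).getD i 0 = 1 := by
  unfold xl
  rw [Hom_list, Hom_list, Hom_list]
  split_ifs with h1 h2 h3
  · rfl
  · rfl
  · rfl
  · have h4 := Hom_list (fun _ => (1 : ℂ)) m [] (i - kt - kb - m)
    rw [List.append_nil] at h4
    rw [h4, if_pos (by omega)]

theorem hom_gen {l kb kt m Lb Lt : ℕ} (hkb : 0 < kb) (hkt : 0 < kt) (h : kb + kt = 2 * l)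
    (hLb : Lb = kb + m) (hLt : Lt = kt + m) (hE : Even Lb) {q : ℂ} (hq : q ^ 2 + q + 1 = 0)
    {Pb : Pat Lb → MvPolynomial ℕ ℂ} {P : Pat Lt → MvPolynomial ℕ ℂ} (hPb : IsPsi (q ^ 2) Lb Pb) (hP : IsPsi q Lt P) :
    WB kb kt (ev Pb fun _ => 1) (ev P fun _ => 1) =
      (q - q ^ 2) ^ kt.choose 2 * (q ^ 2 - q) ^ kb.choose 2 * PhF (2 * m + 2 * l) (GG l m fun _ => 1) (fun _ => 1) := by
  set a : ℝ → ℕ → ℂ := fun t i => Hom_w t i with ha
  set c : ℝ → ℕ → ℂ := fun t i => Hom_w t (i + kt) with hc
  set z : ℝ → ℕ → ℂ := fun t i => Hom_w t (i + (kt + kb)) with hz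
  have ca : ∀ i, Continuous fun t => a t i := fun i => Hom_w_cont i
  have cc : ∀ i, Continuous fun t => c t i := fun i => Hom_w_cont (i + kt)
  have cz : ∀ i, Continuous fun t => z t i := fun i => Hom_w_cont (i + (kt + kb))
  set f : ℝ → ℂ := fun t => NN kb kt Pb P (c t) (a t) (z t) * ∏ j ∈ range m, z t j ^ ex l with hf
  set g : ℝ → ℂ := fun t => FP q kt (a t) * FP (q ^ 2) kb (c t) *
    Phi l m (xl kb kt m (c t) (a t) (z t)) (z t) with hg
  have hfc : Continuous f := by
    refine Continuous.mul ?_ ?_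
    · exact Hom_WB_cont kb kt Pb P (Hom_cat_cont kb cc cz) (Hom_cat_cont kt ca cz)
    · exact continuous_finsetProd _ fun j _ => (cz j).pow _
  have hnil : ∀ i, Continuous fun _ : ℝ => ([] : List ℂ).getD i 0 := fun i => continuous_const
  have hgc : Continuous g := by
    refine ((Hom_FP_cont q kt ca).mul (Hom_FP_cont (q ^ 2) kb cc)).mul ?_
    refine Hom_Phi_cont l m ?_ cz
    refine Hom_list_cont kt ca (Hom_list_cont kb cc (Hom_list_cont m cz ?_))
    intro i
    have h := Hom_list_cont (l := fun _ => []) m cz hnil i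
    simp only [List.append_nil] at h
    exact h
  have hfg : ∀ t : ℝ, 0 < t → f t = g t := by
    intro t ht
    exact legs hkb hkt h hLb hLt hE hq hPb hP (c t) (a t) (z t) (Hom_gn kb kt m ht)
  have h0 : f 0 = g 0 := by
    have h1 : Filter.Tendsto f (nhdsWithin 0 (Set.Ioi 0)) (nhds (f 0)) :=
      (hfc.tendsto 0).mono_left nhdsWithin_le_nhds
    have h2 : Filter.Tendsto g (nhdsWithin 0 (Set.Ioi 0)) (nhds (g 0)) :=
      (hgc.tendsto 0).mono_left nhdsWithin_le_nhds
    refine tendsto_nhds_unique_of_eventuallyEq h1 h2 ?_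
    filter_upwards [self_mem_nhdsWithin] with t ht
    exact hfg t ht
  have ea : a 0 = fun _ => 1 := funext fun i => Hom_w_zero i
  have ec : c 0 = fun _ => 1 := funext fun i => Hom_w_zero (i + kt)
  have ez : z 0 = fun _ => 1 := funext fun i => Hom_w_zero (i + (kt + kb))
  have ef : f 0 = WB kb kt (ev Pb fun _ => 1) (ev P fun _ => 1) := by
    simp only [hf]
    rw [ea, ec, ez]
    unfold NN
    rw [Hom_cat_one, Hom_cat_one]
    simp
  have eg : g 0 = (q - q ^ 2) ^ kt.choose 2 * (q ^ 2 - q) ^ kb.choose 2 *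
      PhF (2 * m + 2 * l) (GG l m fun _ => 1) (fun _ => 1) := by
    simp only [hg]
    rw [ea, ec, ez, FP_one, FP_one, EqM_sq hq]
    unfold Phi
    congr 1
    exact PhF_congr (fun j _ => rfl) (fun j hj => Hom_xl_one kb kt m j (by omega))
  rw [← ef, h0, eg]

/-- `l` legs below and `l` legs above, homogeneous -/
theorem hom_value {l m L : ℕ} (hl : 0 < l) (hL : L = l + m) (hE : Even L) {q : ℂ} (hq : q ^ 2 + q + 1 = 0)
    {Pb P : Pat L → MvPolynomial ℕ ℂ} (hPb : IsPsi (q ^ 2) L Pb) (hP : IsPsi q L P) :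
    WB l l (ev Pb fun _ => 1) (ev P fun _ => 1) =
      3 ^ l.choose 2 * PhF (2 * m + 2 * l) (GG l m fun _ => 1) (fun _ => 1) := by
  rw [hom_gen (l := l) hl hl (by omega) hL hL hE hq hPb hP, ← mul_pow]
  have e1 : (q - q ^ 2) * (q ^ 2 - q) = 3 := by
    linear_combination (-q ^ 2 + 3 * q - 3) * hq
  rw [e1]

end QL
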