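import Pool.Agent.Lib.MP_216314_pr.Q4.Phi

/-!
# The families `G_m` and the function `Phi` for `2l` legs
-/

set_option autoImplicit false

noncomputable section

namespace QL

open Finset Polynomial Q4

/-- exponents of the two monomials of the recursion -/
def e1 (l : ℕ) : ℕ := if l % 3 = 1 then 0 else if l % 3 = 2 then 1 else 2

def e2 (l : ℕ) : ℕ := if l % 3 = 1 then 1 else if l % 3 = 2 then 2 else 0

/-- the exponent of the entries -/
def ex (l : ℕ) : ℕ := if l % 3 = 1 then 0 else if l % 3 = 2 then 2 else 1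

/-- the power of the root of unity -/
def nu (l : ℕ) : ℕ := if l % 3 = 1 then 0 else if l % 3 = 2 then 1 else 2

def GG (l : ℕ) : ℕ → (ℕ → ℂ) → ℕ → ℂ[X]
  | 0, _ => fun j => if j < 2 * l then X ^ j else 0
  | m + 1, z => pre (X ^ e1 l) (X ^ e2 l) (fun j => (X ^ 3 - C (z 0 ^ 3)) * GG l m (fun i => z (i + 1)) j)

theorem e1_le (l : ℕ) : e1 l ≤ 2 := by
  unfold e1
  split_ifs <;> omega

theorem e2_le (l : ℕ) : e2 l ≤ 2 := by
  unfold e2
  split_ifs <;> omega

theorem GG_deg {l : ℕ} (hl : 0 < l) (m : ℕ) (z : ℕ → ℂ) (j : ℕ) :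
    (GG l m z j).natDegree ≤ 3 * m + (2 * l - 1) := by
  induction m generalizing z j with
  | zero =>
    unfold GG
    beta_reduce
    split_ifs with h0
    · rw [natDegree_X_pow]; omega
    · rw [natDegree_zero]; omega
  | succ m ih =>
    unfold GG pre
    by_cases h0 : j = 0
    · rw [if_pos h0, natDegree_X_pow]
      have := e1_le l
      omega
    · rw [if_neg h0]
      by_cases h1 : j = 1
      · rw [if_pos h1, natDegree_X_pow]
        have := e2_le l
        omega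
      · rw [if_neg h1]
        have h2 := ih (fun i => z (i + 1)) (j - 2)
        have h3 : (X ^ 3 - C (z 0 ^ 3) : ℂ[X]).natDegree = 3 := natDegree_X_pow_sub_C
        calc ((X ^ 3 - C (z 0 ^ 3)) * GG l m (fun i => z (i + 1)) (j - 2)).natDegree
            ≤ (X ^ 3 - C (z 0 ^ 3) : ℂ[X]).natDegree + (GG l m (fun i => z (i + 1)) (j - 2)).natDegree :=
              natDegree_mul_le
          _ ≤ 3 * (m + 1) + (2 * l - 1) := by rw [h3]; omega

/-- the function `Phi_m(x; z)`, `x` a list of length `2m+2l` -/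
def Phi (l m : ℕ) (x : List ℂ) (z : ℕ → ℂ) : ℂ := PhF (2 * m + 2 * l) (GG l m z) (fun i => x.getD i 0)

theorem Phi_perm (l m : ℕ) {x x' : List ℂ} (h : x.Perm x') (hl : x.length = 2 * m + 2 * l) (z : ℕ → ℂ) :
    Phi l m x z = Phi l m x' z := PhF_list (GG l m z) h hl

theorem Phi_zero (l : ℕ) (x : List ℂ) (z : ℕ → ℂ) : Phi l 0 x z = 1 := by
  unfold Phi PhF
  have h1 : (2 * 0 + 2 * l) = 2 * l := by omega
  rw [h1]
  have hM : (Matrix.of fun i j : Fin (2 * l) => DD (fun i => x.getD i 0) i (GG l 0 z j)) =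
      Matrix.of fun i j : Fin (2 * l) => hh (fun i => x.getD i 0) (j : ℕ) (i : ℕ) := by
    apply Matrix.ext
    intro i j
    rw [Matrix.of_apply, Matrix.of_apply]
    unfold GG
    beta_reduce
    rw [if_pos j.2, DD_X_pow]
  rw [hM, Matrix.det_of_upperTriangular]
  · apply Finset.prod_eq_one
    intro i _
    rw [Matrix.of_apply, hh_self]
  · intro i j hij
    rw [Matrix.of_apply]
    exact hh_zero _ _ _ hij

theorem GG_congr (l m : ℕ) {z z' : ℕ → ℂ} (h : ∀ i, i < m → z i = z' i) : GG l m z = GG l m z' := by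
  induction m generalizing z z' with
  | zero => rfl
  | succ m ih =>
    unfold GG
    rw [h 0 (by omega), ih (z := fun i => z (i + 1)) (z' := fun i => z' (i + 1)) (fun i hi => h (i + 1) (by omega))]

theorem Phi_congr (l m : ℕ) (x : List ℂ) {z z' : ℕ → ℂ} (h : ∀ i, i < m → z i = z' i) :
    Phi l m x z = Phi l m x z' := by
  unfold Phi
  rw [GG_congr l m h]

theorem GG_swap (l i : ℕ) : ∀ (m : ℕ), i + 1 < m → ∀ z : ℕ → ℂ,
    UEq (2 * m + 2 * l) (GG l m z) (GG l m (swp i z)) := by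
  induction i with
  | zero =>
    intro m hm z
    obtain ⟨m', rfl⟩ : ∃ m', m = m' + 2 := ⟨m - 2, by omega⟩
    have e : 2 * (m' + 2) + 2 * l = (2 * m' + 2 * l + 2) + 2 := by ring
    rw [e]
    have s0 : swp 0 z 0 = z 1 := by
      unfold swp
      rw [zero_add, Equiv.swap_apply_left]
    have s1 : swp 0 z (0 + 1) = z 0 := by
      unfold swp
      rw [zero_add, Equiv.swap_apply_right]
    have s2 : (fun k => swp 0 z (k + 1 + 1)) = fun k => z (k + 1 + 1) := by
      funext k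
      unfold swp
      rw [Equiv.swap_apply_of_ne_of_ne (by omega) (by omega)]
    have g1 : GG l (m' + 2) z = pre (X ^ e1 l) (X ^ e2 l) (fun j => (X ^ 3 - C (z 0 ^ 3)) *
        pre (X ^ e1 l) (X ^ e2 l) (fun j => (X ^ 3 - C (z (0 + 1) ^ 3)) * GG l m' (fun k => z (k + 1 + 1)) j) j) := rfl
    have g2 : GG l (m' + 2) (swp 0 z) = pre (X ^ e1 l) (X ^ e2 l) (fun j => (X ^ 3 - C (swp 0 z 0 ^ 3)) *
        pre (X ^ e1 l) (X ^ e2 l) (fun j => (X ^ 3 - C (swp 0 z (0 + 1) ^ 3)) *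
          GG l m' (fun k => swp 0 z (k + 1 + 1)) j) j) := rfl
    rw [g1, g2, s0, s1, s2]
    refine UEq.add (X ^ e1 l) (X ^ e2 l) fun j _ => ?_
    unfold pre
    by_cases h0 : j = 0
    · refine ⟨z 0 ^ 3 - z 1 ^ 3, 0, ?_⟩
      rw [if_pos h0, if_pos h0, C_sub, C_0]
      ring
    · rw [if_neg h0, if_neg h0]
      by_cases h1 : j = 1
      · refine ⟨0, z 0 ^ 3 - z 1 ^ 3, ?_⟩
        rw [if_pos h1, if_pos h1, C_sub, C_0]
        ring
      · refine ⟨0, 0, ?_⟩
        rw [if_neg h1, if_neg h1, C_0, zero_add]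
        ring
  | succ i ih =>
    intro m hm z
    obtain ⟨m', rfl⟩ : ∃ m', m = m' + 1 := ⟨m - 1, by omega⟩
    have e : 2 * (m' + 1) + 2 * l = (2 * m' + 2 * l) + 2 := by ring
    rw [e]
    have s0 : swp (i + 1) z 0 = z 0 := by
      unfold swp
      rw [Equiv.swap_apply_of_ne_of_ne (by omega) (by omega)]
    have s1 : (fun k => swp (i + 1) z (k + 1)) = swp i (fun k => z (k + 1)) := by
      funext k
      unfold swp
      by_cases h0 : k = i
      · rw [h0, Equiv.swap_apply_left, Equiv.swap_apply_left]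
      · by_cases h1 : k = i + 1
        · rw [h1, Equiv.swap_apply_right, Equiv.swap_apply_right]
        · rw [Equiv.swap_apply_of_ne_of_ne (by omega) (by omega), Equiv.swap_apply_of_ne_of_ne h0 h1]
    have g1 : GG l (m' + 1) z = pre (X ^ e1 l) (X ^ e2 l)
        (fun j => (X ^ 3 - C (z 0 ^ 3)) * GG l m' (fun k => z (k + 1)) j) := rfl
    have g2 : GG l (m' + 1) (swp (i + 1) z) = pre (X ^ e1 l) (X ^ e2 l) (fun j => (X ^ 3 - C (swp (i + 1) z 0 ^ 3)) *
        GG l m' (fun k => swp (i + 1) z (k + 1)) j) := rfl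
    rw [g1, g2, s0, s1]
    exact UEq.pre (ih m' (by omega) (fun k => z (k + 1))) (X ^ e1 l) (X ^ e2 l) (X ^ 3 - C (z 0 ^ 3))

theorem Phi_swap_z (l m : ℕ) {i : ℕ} (hi : i + 1 < m) (x : List ℂ) (z : ℕ → ℂ) :
    Phi l m x (swp i z) = Phi l m x z := PhF_ueq (GG_swap l i m hi z) _

/-- the two by two determinant of the first columns -/
theorem uu (l : ℕ) (x : ℕ → ℂ) {s w : ℂ} (hs : s ^ 2 + s + 1 = 0) (h0 : x 0 = w) (h1 : x 1 = s * w) :
    DD x 0 (X ^ e1 l) * DD x 1 (X ^ e2 l) - DD x 0 (X ^ e2 l) * DD x 1 (X ^ e1 l) = s ^ nu l * w ^ ex l := by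
  have a00 : hh x 0 0 = 1 := rfl
  have a01 : hh x 0 1 = 0 := rfl
  have a10 : hh x 1 0 = w := by
    have : hh x 1 0 = x 0 * hh x 0 0 := rfl
    rw [this, a00, mul_one, h0]
  have a11 : hh x 1 1 = 1 := hh_self x 1
  have a20 : hh x 2 0 = w ^ 2 := by
    have : hh x 2 0 = x 0 * hh x 1 0 := rfl
    rw [this, a10, h0, sq]
  have a21 : hh x 2 1 = s * w + w := by
    have : hh x 2 1 = x 1 * hh x 1 1 + hh x 1 0 := rfl
    rw [this, a10, a11, h1, mul_one]
  simp only [DD_X_pow]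
  unfold e1 e2 ex nu
  split_ifs with h3 h4
  · rw [a00, a01, a11]
    ring
  · rw [a10, a11, a20, a21]
    ring
  · rw [a00, a01, a20, a21]
    linear_combination (-w) * hs

theorem Phi_rec (l m : ℕ) (x : List ℂ) (hl : x.length = 2 * m + 2 * l) (z : ℕ → ℂ) {s : ℂ} (hs : s ^ 2 + s + 1 = 0) :
    Phi l (m + 1) (z 0 :: s * z 0 :: x) z =
      s ^ nu l * z 0 ^ ex l * (x.map fun x => x - s ^ 2 * z 0).prod * Phi l m x (fun i => z (i + 1)) := by
  have hf : (X ^ 3 - C (z 0 ^ 3) : ℂ[X]) = (X - C (z 0)) * (X - C (s * z 0)) * (X - C (s ^ 2 * z 0)) := by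
    have hC : (C s : ℂ[X]) ^ 2 + C s + 1 = 0 := by
      rw [← C_pow, ← C_add, ← C_1, ← C_add, hs, C_0]
    have e1 : (C (s * z 0) : ℂ[X]) = C s * C (z 0) := C_mul
    have e2 : (C (s ^ 2 * z 0) : ℂ[X]) = C s ^ 2 * C (z 0) := by rw [C_mul, C_pow]
    have e3 : (C (z 0 ^ 3) : ℂ[X]) = C (z 0) ^ 3 := C_pow
    rw [e1, e2, e3]
    linear_combination (X ^ 2 * C (z 0) - C s * X * C (z 0) ^ 2 + (C s - 1) * C (z 0) ^ 3) * hC
  have hG : GG l (m + 1) z = pre (X ^ e1 l) (X ^ e2 l) (fun j => (X - C ((fun i => (z 0 :: s * z 0 :: x).getD i 0) 0)) *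
      (X - C ((fun i => (z 0 :: s * z 0 :: x).getD i 0) 1)) * (X - C (s ^ 2 * z 0)) * GG l m (fun i => z (i + 1)) j) := by
    have g1 : GG l (m + 1) z = pre (X ^ e1 l) (X ^ e2 l)
        (fun j => (X ^ 3 - C (z 0 ^ 3)) * GG l m (fun k => z (k + 1)) j) := rfl
    rw [g1, hf]
    rfl
  have h1 := PhF_rec (2 * m + 2 * l) (X ^ e1 l) (X ^ e2 l) (GG l m fun i => z (i + 1))
    (fun i => (z 0 :: s * z 0 :: x).getD i 0) (s ^ 2 * z 0)
  rw [← hG] at h1
  have e : 2 * (m + 1) + 2 * l = (2 * m + 2 * l) + 2 := by ring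
  unfold Phi
  rw [e, h1, uu l (fun i => (z 0 :: s * z 0 :: x).getD i 0) hs rfl rfl]
  have hp : ∏ i ∈ range (2 * m + 2 * l), ((fun i => (z 0 :: s * z 0 :: x).getD i 0) (i + 2) - s ^ 2 * z 0) =
      (x.map fun x => x - s ^ 2 * z 0).prod := by
    rw [← Phi_prod, hl]
    rfl
  rw [hp]
  rfl

/-- degree in one entry -/
theorem Phi_update {l : ℕ} (hl0 : 0 < l) (m : ℕ) (x : List ℂ) (hl : x.length + 1 = 2 * m + 2 * l) (z : ℕ → ℂ) :
    ∃ p : ℂ[X], p.natDegree ≤ m ∧ ∀ b : ℂ, Phi l m (x ++ [b]) z = p.eval b := by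
  obtain ⟨p, hp, he⟩ := PhF_update x.length (3 * m + (2 * l - 1)) (GG l m z) (fun j _ => GG_deg hl0 m z j)
    (fun i => x.getD i 0)
  refine ⟨p, by omega, fun b => ?_⟩
  rw [← he b]
  unfold Phi
  rw [← hl]
  refine PhF_congr (fun j _ => rfl) fun j hj => ?_
  by_cases h : j = x.length
  · rw [h, Function.update_self]
    simp
  · rw [Function.update_of_ne h]
    have h1 : j < x.length := by omega
    exact List.getD_append x [b] 0 j h1

end QL
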